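import Pool.Agent.Helper32.WS.Cub
import Pool.Agent.Helper9.WS.Defs5

/-!
WS-35: `cubic_compare`.
-/

set_option autoImplicit false

open MvPolynomial Finset

namespace Pool.Agent.Helper9.WS

variable {p m e : ℕ} {k : Type} [Field k] {a₂ a₄ a₆ g : Polynomial k}

/-- the exponents of `z F(x, t) + z'` -/
private lemma cub0_32 (h : CubicType p m e a₂ a₄ a₆ g) {v : Fin 4 →₀ ℕ}
    (hv : v ∈ (ell4 (cubF a₂ a₄ a₆) 0).support) :
    coeff v (ell4 (cubF a₂ a₄ a₆) 0) = coeff v (ell4 (cubF a₂ a₄ a₆) g) ∧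
      ((∃ i j, i ≤ 3 ∧ e * j ≤ m * (3 - i) ∧ v = cv j i 1 0) ∨ v = cv 0 0 0 1) := by
  have h1 : v ≠ cv (v 0) 0 0 0 := by
    intro h2
    rw [mem_support_iff, h2, cub_coeff_g, Polynomial.coeff_zero] at hv
    exact hv rfl
  have h2 : coeff v (ell4 (cubF a₂ a₄ a₆) 0) = coeff v (ell4 (cubF a₂ a₄ a₆) g) := by
    rw [cub_coeff, cub_coeff, if_neg h1, if_neg h1]
  refine ⟨h2, ?_⟩
  have h3 : v ∈ (ell4 (cubF a₂ a₄ a₆) g).support := by
    rw [mem_support_iff, ← h2]
    exact mem_support_iff.1 hv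
  rcases cub_sup h h3 with ⟨j, hj, rfl⟩ | h4 | h4
  · exact absurd rfl h1
  · exact Or.inl h4
  · exact Or.inr h4

/-- the other exponents are powers of `t` -/
private lemma cub1_32 (_h : CubicType p m e a₂ a₄ a₆ g) {v : Fin 4 →₀ ℕ}
    (hv : v ∈ (ell4 (cubF a₂ a₄ a₆) g).support) (hv' : v ∉ (ell4 (cubF a₂ a₄ a₆) 0).support) :
    v 2 + v 3 = 0 := by
  by_cases h1 : v = cv (v 0) 0 0 0
  · rw [h1]
    rfl
  · exfalso
    rw [mem_support_iff] at hv hv'
    apply hv'
    rw [cub_coeff, if_neg h1]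
    rw [cub_coeff, if_neg h1] at hv
    exact hv

/-- the weight without `g` -/
private noncomputable def cubWt0 (h : CubicType p m e a₂ a₄ a₆ g) :
    Weight p (ell4 (cubF a₂ a₄ a₆) 0).support
      (fun U : Fin 4 →₀ ℕ => U 1 ≤ 3 * U 2 ∧ e * U 0 + m * U 1 ≤ 3 * m * U 2) where
  l := e * g.natDegree
  l_pos := Nat.mul_pos h.e_pos h.g_pos
  w U := e * g.natDegree * (U 2 + U 3)
  w_smul U := by
    simp only [Finsupp.smul_apply, smul_eq_mul]
    ring
  w_exp v hv U := by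
    simp only [Finsupp.add_apply, Finsupp.smul_apply, smul_eq_mul]
    rcases (cub0_32 h hv).2 with ⟨i, j, hi, hj, rfl⟩ | rfl
    · simp only [cv_2, cv_3, mul_zero, add_zero, mul_one]
      exact le_of_eq (by ring)
    · simp only [cv_2, cv_3, mul_zero, add_zero, mul_one]
      exact le_of_eq (by ring)
  C_zero := by simp
  C_exp v hv U hU := by
    simp only [Finsupp.add_apply] at *
    rcases (cub0_32 h hv).2 with ⟨i, j, hi, hj, rfl⟩ | rfl
    · simp only [cv_0, cv_1, cv_2]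
      have h5 : e * j + m * i ≤ 3 * m := by
        have : m * (3 - i) + m * i = 3 * m := by
          rw [← Nat.mul_add, Nat.sub_add_cancel hi]
          ring
        omega
      have h6 : e * (U 0 + j) + m * (U 1 + i) = e * U 0 + m * U 1 + (e * j + m * i) := by ring
      have h7 : 3 * m * (U 2 + 1) = 3 * m * U 2 + 3 * m := by ring
      omega
    · simp only [cv_0, cv_1, cv_2, add_zero]
      exact hU
  C_smul n U hn hU := by
    simp only [Finsupp.smul_apply, smul_eq_mul] at hU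
    obtain ⟨h1, h2⟩ := hU
    constructor
    · have h3 : n * U 1 ≤ n * (3 * U 2) := by
        calc n * U 1 ≤ 3 * (n * U 2) := h1
          _ = _ := by ring
      exact Nat.le_of_mul_le_mul_left h3 hn
    · have h3 : n * (e * U 0 + m * U 1) ≤ n * (3 * m * U 2) := by
        calc n * (e * U 0 + m * U 1) = e * (n * U 0) + m * (n * U 1) := by ring
          _ ≤ 3 * m * (n * U 2) := h2
          _ = _ := by ring
      exact Nat.le_of_mul_le_mul_left h3 hn

private lemma cub0_w32 (h : CubicType p m e a₂ a₄ a₆ g) (U : Fin 4 →₀ ℕ) :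
    (cubWt0 h).w U = e * g.natDegree * (U 2 + U 3) := rfl

private lemma cub0_l32 (h : CubicType p m e a₂ a₄ a₆ g) : (cubWt0 h).l = e * g.natDegree := rfl

private lemma odd32 {N x : ℕ} (hN : 0 < N) (h : 2 * N ∣ x + N) : ∃ y, x = N * (2 * y + 1) := by
  obtain ⟨c, hc⟩ := h
  have hc0 : c ≠ 0 := by
    rintro rfl
    omega
  obtain ⟨y, rfl⟩ := Nat.exists_eq_succ_of_ne_zero hc0
  refine ⟨y, ?_⟩
  have h1 : N * (2 * y + 1) + N = 2 * N * (y + 1) := by ring
  have h2 : x + N = 2 * N * (y + 1) := hc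
  omega

/-- the classes -/
private lemma cls32 {N : ℕ} (hN0 : 0 < N) (hp : p - 1 = 2 * N) {Z : Finset (Fin 4)} {U : Fin 4 →₀ ℕ}
    (hU : Cls p (ellc p) Z U) : ∃ t x z z', U 0 = 2 * N * t ∧ U 1 = 2 * N * x ∧ U 2 = N * (2 * z + 1) ∧
      U 3 = N * (2 * z' + 1) ∧ (Z = ∅ → 0 < t ∧ 0 < x) := by
  have hc0 : ellc p 0 = 0 := rfl
  have hc1 : ellc p 1 = 0 := rfl
  have hc2 : ellc p 2 = N := by
    show (p - 1) / 2 = N
    omega
  have hc3 : ellc p 3 = N := by
    show (p - 1) / 2 = N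
    omega
  obtain ⟨a0, b0⟩ := hU 0
  obtain ⟨a1, b1⟩ := hU 1
  obtain ⟨a2, b2⟩ := hU 2
  obtain ⟨a3, b3⟩ := hU 3
  rw [hc0, add_zero, hp] at b0
  rw [hc1, add_zero, hp] at b1
  rw [hc2, hp] at b2
  rw [hc3, hp] at b3
  obtain ⟨t, ht⟩ := b0
  obtain ⟨x, hx⟩ := b1
  obtain ⟨z, hz⟩ := odd32 hN0 b2
  obtain ⟨z', hz'⟩ := odd32 hN0 b3
  refine ⟨t, x, z, z', ht, hx, hz, hz', ?_⟩
  intro hZ
  subst hZ
  constructor
  · rcases Nat.eq_zero_or_pos t with h1 | h1
    · rw [h1, mul_zero] at ht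
      exact absurd (a0.2 ht) (notMem_empty _)
    · exact h1
  · rcases Nat.eq_zero_or_pos x with h1 | h1
    · rw [h1, mul_zero] at hx
      exact absurd (a1.2 hx) (notMem_empty _)
    · exact h1

/-- on the slope 1 part the excess vanishes -/
private lemma exc32 (h : CubicType p m e a₂ a₄ a₆ g) {N : ℕ} (hN0 : 0 < N) (hp : p - 1 = 2 * N)
    {Z : Finset (Fin 4)} {a : ℕ} {U : Fin 4 →₀ ℕ} (ha : Z.card ≤ a) (hU : Cls p (ellc p) Z U)
    (hC : U 1 ≤ 3 * U 2)
    (hw : (cubWt h).w U + a * ((p - 1) * (cubWt h).l) = 2 * ((p - 1) * (cubWt h).l)) :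
    e * U 0 + m * U 1 ≤ 3 * m * U 2 := by
  obtain ⟨t, x, z, z', h0, h1, h2, h3, h4⟩ := cls32 hN0 hp hU
  rw [cub_w, cub_l, hp] at hw
  have hl : 0 < e * g.natDegree := Nat.mul_pos h.e_pos h.g_pos
  set l := e * g.natDegree with hll
  have e1 : l * (U 2 + U 3) = 2 * N * l * (z + z' + 1) := by
    rw [h2, h3]
    ring
  rw [e1] at hw
  have hNl : 0 < 2 * N * l := by positivity
  by_contra hcon
  push Not at hcon
  have h5 : 2 * N * l * (z + z' + 1 + a) < 2 * N * l * 2 := by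
    have : 2 * N * l * (z + z' + 1 + a) = 2 * N * l * (z + z' + 1) + a * (2 * N * l) := by ring
    omega
  have h6 := Nat.lt_of_mul_lt_mul_left h5
  have ha0 : a = 0 := by omega
  have hz0 : z = 0 := by omega
  have hz0' : z' = 0 := by omega
  subst ha0 hz0 hz0'
  have hZ : Z = ∅ := by
    rw [← card_eq_zero]
    omega
  obtain ⟨ht, hx⟩ := h4 hZ
  simp only [mul_zero, zero_add, mul_one, zero_mul, add_zero] at h2 h3 hw
  have hx1 : x = 1 := by
    rw [h1, h2] at hC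
    have h9 : N * (2 * x) ≤ N * 3 := by
      have e1 : N * (2 * x) = 2 * N * x := by ring
      omega
    have h10 := Nat.le_of_mul_le_mul_left h9 hN0
    omega
  rw [hx1, mul_one] at h1
  have h7 : e * U 0 + m * U 1 = 3 * m * U 2 + 2 * N * l := by omega
  rw [h0, h1, h2] at h7
  have h8 : N * (2 * e * t) = N * (2 * e * g.natDegree + m) := by
    have e2 : e * (2 * N * t) + m * (2 * N) = N * (2 * e * t) + 2 * (m * N) := by ring
    have e3 : 3 * m * N + 2 * N * l = N * (2 * e * g.natDegree + m) + 2 * (m * N) := by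
      rw [hll]
      ring
    omega
  have h9 := Nat.eq_of_mul_eq_mul_left hN0 h8
  have h10 : 2 * e ∣ m := by
    rw [← Nat.dvd_add_right (Dvd.intro g.natDegree rfl : 2 * e ∣ 2 * e * g.natDegree), ← h9]
    exact Dvd.intro t rfl
  have h11 := Nat.le_of_dvd h.m_pos h10
  have h12 := h.m_lt
  omega

/-- the sums over the two supports -/
private lemma sum0_32 (h : CubicType p m e a₂ a₄ a₆ g) {n : (Fin 4 →₀ ℕ) → ℕ}
    (hn : ∀ v ∈ (ell4 (cubF a₂ a₄ a₆) g).support, v ∉ (ell4 (cubF a₂ a₄ a₆) 0).support → n v = 0)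
    {R : Type} [AddCommMonoid R] (F : (Fin 4 →₀ ℕ) → R)
    (hF : ∀ v, n v = 0 → F v = 0) :
    ∑ v ∈ (ell4 (cubF a₂ a₄ a₆) 0).support, F v = ∑ v ∈ (ell4 (cubF a₂ a₄ a₆) g).support, F v := by
  refine sum_subset ?_ fun v hv hv' => hF v (hn v hv hv')
  intro v hv
  rw [mem_support_iff, ← (cub0_32 h hv).1]
  exact mem_support_iff.1 hv

/-- the `z + z'` degree -/
private lemma deg32 (n : (Fin 4 →₀ ℕ) → ℕ) {A : Finset (Fin 4 →₀ ℕ)} {U V : Fin 4 →₀ ℕ}
    (h1 : (p - 1) • (∑ v ∈ A, n v • v) + V = p • U) :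
    (p - 1) * (∑ v ∈ A, n v * (v 2 + v 3)) + (V 2 + V 3) = p * (U 2 + U 3) := by
  have hco : ∀ j, (p - 1) * (∑ v ∈ A, n v * v j) + V j = p * U j := by
    intro j
    have h3 := DFunLike.congr_fun h1 j
    simpa [Finsupp.finsetSum_apply] using h3
  have q2 := hco 2
  have q3 := hco 3
  have e1 : ∑ v ∈ A, n v * (v 2 + v 3) = ∑ v ∈ A, n v * v 2 + ∑ v ∈ A, n v * v 3 := by
    rw [← sum_add_distrib]
    exact sum_congr rfl fun v _ => by ring
  rw [e1, mul_add, mul_add, ← q2, ← q3]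
  ring

private lemma le1_32 (h : CubicType p m e a₂ a₄ a₆ g) {v : Fin 4 →₀ ℕ}
    (hv : v ∈ (ell4 (cubF a₂ a₄ a₆) g).support) : v 2 + v 3 ≤ 1 := by
  rcases cub_sup h hv with ⟨j, hj, rfl⟩ | ⟨i, j, hi, hj, rfl⟩ | rfl
  · simp only [cv_2, cv_3]
    omega
  · simp only [cv_2, cv_3]
    omega
  · simp only [cv_2, cv_3]
    omega

theorem cubic_compare {p : ℕ} [Fact p.Prime] {k : Type} [Field k] [CharP k p] {m e : ℕ}
    {a₂ a₄ a₆ g : Polynomial k} (h : CubicType p m e a₂ a₄ a₆ g) (s : ℕ) :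
    ∃ (C C' : (Fin 4 →₀ ℕ) → Prop) (ω : Weight p (ell4 (cubF a₂ a₄ a₆) g).support C)
      (ω' : Weight p (ell4 (cubF a₂ a₄ a₆) 0).support C')
      (low : Finset (Fin 4 →₀ ℕ)), 0 < ω.l ∧
      Blocks (ell4 (cubF a₂ a₄ a₆) g) ω (ellc p) s (2 * ((p - 1) * ω.l)) low ∧
      low.card = g.natDegree ∧ Compare ω ω' (ellc p) (2 * ((p - 1) * ω.l)) := by
  classical
  obtain ⟨low, hb, hlow⟩ := cub_blocks h s
  refine ⟨_, _, cubWt h, cubWt0 h, low, (cubWt h).l_pos, hb, hlow, ?_⟩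
  have he := h.e_pos
  have hd := h.g_pos
  obtain ⟨r, hr⟩ := h.dvd
  obtain ⟨N, hN⟩ : ∃ N, N = e * g.natDegree * r := ⟨_, rfl⟩
  have hp : p - 1 = 2 * N := by rw [hr, hN]; ring
  have hp2 : 2 ≤ p := (Fact.out : p.Prime).two_le
  have hN0 : 0 < N := by omega
  obtain ⟨q, hq⟩ : ∃ q, m + q = 2 * e := ⟨2 * e - m, by have := h.m_le; omega⟩
  have hl : 0 < e * g.natDegree := Nat.mul_pos he hd
  -- equality of the weights
  have hww : ∀ U : Fin 4 →₀ ℕ, e * U 0 + m * U 1 ≤ 3 * m * U 2 → (cubWt h).w U = (cubWt0 h).w U := by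
    intro U hU
    rw [cub_w, cub0_w32, Nat.sub_eq_zero_of_le hU, add_zero]
  refine ⟨rfl, ?_, ?_, ?_, ?_, ?_, ?_⟩
  · intro v hv
    rw [mem_support_iff, ← (cub0_32 h hv).1]
    exact mem_support_iff.1 hv
  · intro v hv
    exact (cub0_32 h hv).1
  · intro Z U hU hC
    obtain ⟨t, x, z, z', h0, h1, h2, h3, h4⟩ := cls32 hN0 hp hU
    rw [cub0_w32, cub_l, hp]
    obtain ⟨hC1, hC2⟩ := hC
    set l := e * g.natDegree with hll
    have e1 : l * (U 2 + U 3) = 2 * N * l * (z + z' + 1) := by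
      rw [h2, h3]
      ring
    rw [e1]
    have e2 : 2 * N * l * (z + z' + 1) + Z.card * (2 * N * l) = 2 * N * l * (z + z' + 1 + Z.card) := by ring
    have e3 : 2 * (2 * N * l) = 2 * N * l * 2 := by ring
    rw [e2, e3]
    refine Nat.mul_le_mul_left _ ?_
    by_contra hcon
    have hz0 : z = 0 := by omega
    have hZ0 : Z = ∅ := by
      rw [← card_eq_zero]
      omega
    obtain ⟨ht, hx⟩ := h4 hZ0
    rw [hz0, mul_zero, zero_add, mul_one] at h2
    rw [h0, h1, h2] at hC2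
    have h5 : N * (2 * (e * t) + 2 * (m * x)) ≤ N * (3 * m) := by
      have e4 : N * (2 * (e * t) + 2 * (m * x)) = e * (2 * N * t) + m * (2 * N * x) := by ring
      have e5 : N * (3 * m) = 3 * m * N := by ring
      omega
    have h6 := Nat.le_of_mul_le_mul_left h5 hN0
    have h7 : e * 1 ≤ e * t := Nat.mul_le_mul_left _ ht
    have h8 : m * 1 ≤ m * x := Nat.mul_le_mul_left _ hx
    have h9 := h.m_lt
    omega
  · intro Z a U ha hU
    constructor
    · rintro ⟨hC, hw⟩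
      have h1 := exc32 h hN0 hp ha hU hC hw
      exact ⟨⟨hC, h1⟩, by rw [← hww U h1]; exact hw⟩
    · rintro ⟨⟨hC, h1⟩, hw⟩
      exact ⟨hC, by rw [hww U h1]; exact hw⟩
  · intro Z a U V ha hU hV hCU hCV hwU hwV n
    have hU1 := exc32 h hN0 hp ha hU hCU hwU
    have hV1 := exc32 h hN0 hp ha hV hCV hwV
    constructor
    · rintro ⟨h1, h2⟩
      have h3 := deg32 n h1
      rw [hww U hU1, hww V hV1, cub0_w32, cub0_w32, cub_l] at h2
      have h4 : ∑ v ∈ (ell4 (cubF a₂ a₄ a₆) g).support, n v * (v 2 + v 3) =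
          ∑ v ∈ (ell4 (cubF a₂ a₄ a₆) g).support, n v := by
        have h5 : e * g.natDegree * ((p - 1) * (∑ v ∈ (ell4 (cubF a₂ a₄ a₆) g).support, n v * (v 2 + v 3))) =
            e * g.natDegree * ((p - 1) * ∑ v ∈ (ell4 (cubF a₂ a₄ a₆) g).support, n v) := by
          have h6 : e * g.natDegree * ((p - 1) * (∑ v ∈ (ell4 (cubF a₂ a₄ a₆) g).support, n v * (v 2 + v 3)) +
              (V 2 + V 3)) = p * (e * g.natDegree * (U 2 + U 3)) := by
            rw [h3]
            ring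
          rw [← h2] at h6
          rw [mul_add] at h6
          have h7 : (p - 1) * (e * g.natDegree) * (∑ v ∈ (ell4 (cubF a₂ a₄ a₆) g).support, n v) =
            e * g.natDegree * ((p - 1) * ∑ v ∈ (ell4 (cubF a₂ a₄ a₆) g).support, n v) := by ring
          omega
        exact Nat.eq_of_mul_eq_mul_left (by omega) (Nat.eq_of_mul_eq_mul_left hl h5)
      have h5 := (sum_eq_sum_iff_of_le (fun v hv => by
        calc n v * (v 2 + v 3) ≤ n v * 1 := Nat.mul_le_mul_left _ (le1_32 h hv)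
          _ = n v := mul_one _)).1 h4
      have h6 : ∀ v ∈ (ell4 (cubF a₂ a₄ a₆) g).support, v ∉ (ell4 (cubF a₂ a₄ a₆) 0).support → n v = 0 := by
        intro v hv hv'
        have h7 := h5 v hv
        rw [cub1_32 h hv hv', mul_zero] at h7
        exact h7.symm
      refine ⟨⟨?_, ?_⟩, h6⟩
      · rw [sum0_32 h h6 _ (fun v hv => by rw [hv, zero_smul])]
        exact h1
      · rw [sum0_32 h h6 _ (fun v hv => hv), cub0_w32, cub0_w32, cub0_l32]
        exact h2
    · rintro ⟨⟨h1, h2⟩, h6⟩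
      refine ⟨?_, ?_⟩
      · rw [← sum0_32 h h6 _ (fun v hv => by rw [hv, zero_smul])]
        exact h1
      · rw [← sum0_32 h h6 _ (fun v hv => hv), hww U hU1, hww V hV1]
        exact h2
  · intro U V hU hV hCU hCV hwU hwV n hn
    obtain ⟨h1, h2⟩ := hn
    have hU1 := exc32 h hN0 hp (a := 0) (by simp) hU hCU (by rw [zero_mul, add_zero]; exact hwU)
    obtain ⟨t, ht, rfl⟩ := (cub_low h hN hN0 hp V).1 ⟨fun j => ⟨fun hj => by
      have := (hV j).1.2 hj
      exact absurd this (notMem_empty _), (hV j).2⟩, hCV, hwV⟩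
    have h3 := deg32 n h1
    have h4 : ∑ v ∈ (ell4 (cubF a₂ a₄ a₆) g).support, n v * (v 2 + v 3) ≤
        ∑ v ∈ (ell4 (cubF a₂ a₄ a₆) g).support, n v := by
      refine sum_le_sum fun v hv => ?_
      calc n v * (v 2 + v 3) ≤ n v * 1 := Nat.mul_le_mul_left _ (le1_32 h hv)
        _ = n v := mul_one _
    set s23 := ∑ v ∈ (ell4 (cubF a₂ a₄ a₆) g).support, n v * (v 2 + v 3) with hs23
    set sn := ∑ v ∈ (ell4 (cubF a₂ a₄ a₆) g).support, n v with hsn
    have hU2 : U 2 + U 3 = 4 * N := by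
      rw [hww U hU1, cub0_w32, cub_l, hp] at hwU
      have h5 : e * g.natDegree * (U 2 + U 3) = e * g.natDegree * (4 * N) := by
        rw [hwU]
        ring
      exact Nat.eq_of_mul_eq_mul_left hl h5
    have hV23 : (lowv N t) 2 + (lowv N t) 3 = 2 * N := by
      unfold lowv
      rw [cv_2, cv_3]
      ring
    rw [hU2, hV23, hp] at h3
    rw [hwU, cub_w_low h N t q hq, cub_l, hp] at h2
    have h5 : s23 + 1 = 2 * p := by
      have h6 : 2 * N * (s23 + 1) = 2 * N * (2 * p) := by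
        calc 2 * N * (s23 + 1) = 2 * N * s23 + 2 * N := by ring
          _ = p * (4 * N) := h3
          _ = _ := by ring
      exact Nat.eq_of_mul_eq_mul_left (by omega) h6
    set l := e * g.natDegree with hll
    have h6 : 2 * N * l * s23 ≤ 2 * N * l * sn := Nat.mul_le_mul_left _ h4
    have h7 : 2 * N * l * (s23 + 1) = p * (2 * (2 * N * l)) := by
      rw [h5]
      ring
    have h8 : N * (2 * l + (2 * e * t + q)) = 2 * N * l + N * (2 * e * t + q) := by ring
    have h9 : 2 * N * l * (s23 + 1) = 2 * N * l * s23 + 2 * N * l := by ring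
    have h10 : 0 < N * (2 * e * t + q) := by
      have := h.m_lt
      exact Nat.mul_pos hN0 (by omega)
    omega

end Pool.Agent.Helper9.WS
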