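import Pool.Agent.Helper32.WS.CubA

/-!
WS-22: `cubic_blocks`.
-/

set_option autoImplicit false

open MvPolynomial Finset

namespace Pool.Agent.Helper9.WS

variable {p m e : ℕ} {k : Type} [Field k] {a₂ a₄ a₆ g : Polynomial k}

/-- the coefficients of the leading form of the cubic -/
private noncomputable def cc32 (m e : ℕ) (a₂ a₄ a₆ : Polynomial k) (i : ℕ) : k := (leadCubic m e a₂ a₄ a₆).coeff i

/-- the exponents of the leading form -/
private noncomputable def zv32 (m e i : ℕ) : Fin 4 →₀ ℕ := cv (m * (3 - i) / e) i 1 0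

open scoped Classical in
private noncomputable def II32 (m e : ℕ) (a₂ a₄ a₆ : Polynomial k) : Finset ℕ :=
  (range 4).filter fun i => cc32 m e a₂ a₄ a₆ i ≠ 0

private lemma mem_II32 {i : ℕ} : i ∈ II32 m e a₂ a₄ a₆ ↔ i < 4 ∧ cc32 m e a₂ a₄ a₆ i ≠ 0 := by
  classical
  unfold II32
  rw [mem_filter, mem_range]

private lemma cc32_val : cc32 m e a₂ a₄ a₆ 0 = ratCoeff a₆ (3 * m) e ∧ cc32 m e a₂ a₄ a₆ 1 = ratCoeff a₄ (2 * m) e ∧
    cc32 m e a₂ a₄ a₆ 2 = ratCoeff a₂ m e ∧ cc32 m e a₂ a₄ a₆ 3 = 1 := by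
  unfold cc32 leadCubic
  refine ⟨?_, ?_, ?_, ?_⟩ <;>
    simp [Polynomial.coeff_X, Polynomial.coeff_C, Polynomial.coeff_X_pow]

private lemma cc32_high {i : ℕ} (hi : 4 ≤ i) : cc32 m e a₂ a₄ a₆ i = 0 := by
  unfold cc32 leadCubic
  have h0 : i ≠ 0 := by omega
  have h1 : i ≠ 1 := by omega
  have h2 : i ≠ 2 := by omega
  have h3 : i ≠ 3 := by omega
  simp [Polynomial.coeff_X, Polynomial.coeff_C, Polynomial.coeff_X_pow, h0, h1.symm, h2, h3]

/-- the leading form -/
private lemma lead32 : leadCubic m e a₂ a₄ a₆ =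
    ∑ i ∈ II32 m e a₂ a₄ a₆, Polynomial.C (cc32 m e a₂ a₄ a₆ i) * Polynomial.X ^ i := by
  classical
  ext j
  rw [Polynomial.finsetSum_coeff]
  simp_rw [Polynomial.coeff_C_mul, Polynomial.coeff_X_pow, mul_ite, mul_one, mul_zero]
  rw [sum_ite_eq]
  split_ifs with h
  · rfl
  · rw [mem_II32] at h
    push Not at h
    by_cases hj : j < 4
    · exact h hj
    · exact cc32_high (by omega)

private lemma coe32 {i : ℕ} (hi : i ∈ II32 m e a₂ a₄ a₆) : e * (m * (3 - i) / e) = m * (3 - i) ∧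
    coeff (zv32 m e i) (ell4 (cubF a₂ a₄ a₆) g) = cc32 m e a₂ a₄ a₆ i := by
  obtain ⟨h1, h2⟩ := mem_II32.1 hi
  obtain ⟨v0, v1, v2, v3⟩ := cc32_val (m := m) (e := e) (a₂ := a₂) (a₄ := a₄) (a₆ := a₆)
  unfold zv32
  have hi4 : i = 0 ∨ i = 1 ∨ i = 2 ∨ i = 3 := by omega
  rcases hi4 with rfl | rfl | rfl | rfl
  · rw [v0] at h2 ⊢
    unfold ratCoeff at h2 ⊢
    have hd : e ∣ 3 * m := by
      by_contra hc
      rw [if_neg hc] at h2
      exact h2 rfl
    rw [if_pos hd, cub_coeff_0, Nat.sub_zero, mul_comm m 3]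
    exact ⟨Nat.mul_div_cancel' hd, rfl⟩
  · rw [v1] at h2 ⊢
    unfold ratCoeff at h2 ⊢
    have hd : e ∣ 2 * m := by
      by_contra hc
      rw [if_neg hc] at h2
      exact h2 rfl
    rw [if_pos hd, cub_coeff_1, show m * (3 - 1) = 2 * m by omega]
    exact ⟨Nat.mul_div_cancel' hd, rfl⟩
  · rw [v2] at h2 ⊢
    unfold ratCoeff at h2 ⊢
    have hd : e ∣ m := by
      by_contra hc
      rw [if_neg hc] at h2
      exact h2 rfl
    rw [if_pos hd, cub_coeff_2, show m * (3 - 2) = m by omega]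
    exact ⟨Nat.mul_div_cancel' hd, rfl⟩
  · rw [v3, cub_coeff_3, show m * (3 - 3) = 0 by omega, Nat.zero_div, mul_zero, Polynomial.coeff_one_zero]
    exact ⟨rfl, rfl⟩

private lemma zv_of32 (he : 0 < e) {i j : ℕ} (hi : i ≤ 3) (hj : e * j = m * (3 - i))
    (hv : cv j i 1 0 ∈ (ell4 (cubF a₂ a₄ a₆) g).support) : i ∈ II32 m e a₂ a₄ a₆ ∧ cv j i 1 0 = zv32 m e i := by
  have hj' : m * (3 - i) / e = j := by
    rw [← hj]
    exact Nat.mul_div_cancel_left j he
  refine ⟨?_, by unfold zv32; rw [hj']⟩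
  rw [mem_II32]
  refine ⟨by omega, ?_⟩
  obtain ⟨v0, v1, v2, v3⟩ := cc32_val (m := m) (e := e) (a₂ := a₂) (a₄ := a₄) (a₆ := a₆)
  rw [mem_support_iff] at hv
  have hi4 : i = 0 ∨ i = 1 ∨ i = 2 ∨ i = 3 := by omega
  rcases hi4 with rfl | rfl | rfl | rfl
  · rw [cub_coeff_0] at hv
    rw [v0]
    unfold ratCoeff
    have h1 : 3 * m = e * j := by omega
    rw [h1, if_pos (dvd_mul_right _ _), Nat.mul_div_cancel_left j he]
    exact hv
  · rw [cub_coeff_1] at hv
    rw [v1]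
    unfold ratCoeff
    have h1 : 2 * m = e * j := by omega
    rw [h1, if_pos (dvd_mul_right _ _), Nat.mul_div_cancel_left j he]
    exact hv
  · rw [cub_coeff_2] at hv
    rw [v2]
    unfold ratCoeff
    have h1 : m = e * j := by omega
    rw [h1, if_pos (dvd_mul_right _ _), Nat.mul_div_cancel_left j he]
    exact hv
  · rw [v3]
    exact one_ne_zero

private lemma zv_inj32 {i j : ℕ} (h : zv32 m e i = zv32 m e j) : i = j := (cv_inj h).2.1

private lemma mem_supp32 (hd : 0 < g.natDegree) : cv g.natDegree 0 0 0 ∈ (ell4 (cubF a₂ a₄ a₆) g).support ∧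
    cv 0 0 0 1 ∈ (ell4 (cubF a₂ a₄ a₆) g).support ∧
    ∀ i ∈ II32 m e a₂ a₄ a₆, zv32 m e i ∈ (ell4 (cubF a₂ a₄ a₆) g).support := by
  refine ⟨?_, ?_, fun i hi => ?_⟩
  · rw [mem_support_iff, cub_coeff_g, Polynomial.coeff_natDegree, Ne, Polynomial.leadingCoeff_eq_zero]
    rintro rfl
    simp at hd
  · rw [mem_support_iff, cub_coeff_z]
    exact one_ne_zero
  · rw [mem_support_iff, (coe32 hi).2]
    exact (mem_II32.1 hi).2

private lemma prod32 {R : Type} [CommMonoid R] (hd : 0 < g.natDegree) (F : (Fin 4 →₀ ℕ) → R)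
    (hF : ∀ v ∈ (ell4 (cubF a₂ a₄ a₆) g).support, v ≠ cv g.natDegree 0 0 0 → v ≠ cv 0 0 0 1 →
      (∀ i ∈ II32 m e a₂ a₄ a₆, v ≠ zv32 m e i) → F v = 1) :
    ∏ v ∈ (ell4 (cubF a₂ a₄ a₆) g).support, F v =
      F (cv g.natDegree 0 0 0) * (F (cv 0 0 0 1) * ∏ i ∈ II32 m e a₂ a₄ a₆, F (zv32 m e i)) := by
  classical
  obtain ⟨m1, m2, m3⟩ := mem_supp32 (m := m) (e := e) (a₂ := a₂) (a₄ := a₄) (a₆ := a₆) hd
  have hsub : insert (cv g.natDegree 0 0 0) (insert (cv 0 0 0 1) ((II32 m e a₂ a₄ a₆).image (zv32 m e))) ⊆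
      (ell4 (cubF a₂ a₄ a₆) g).support := by
    intro v hv
    rw [mem_insert, mem_insert, mem_image] at hv
    rcases hv with rfl | rfl | ⟨i, hi, rfl⟩
    · exact m1
    · exact m2
    · exact m3 i hi
  rw [← prod_subset hsub]
  · rw [prod_insert, prod_insert, prod_image]
    · intro i _ j _ h
      exact zv_inj32 h
    · rw [mem_image]
      rintro ⟨i, _, hi⟩
      have := (cv_inj hi).2.2.1
      omega
    · rw [mem_insert, mem_image, not_or]
      refine ⟨cv_ne (by omega), ?_⟩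
      rintro ⟨i, _, hi⟩
      have := (cv_inj hi).2.2.1
      omega
  · intro v hv h1
    rw [mem_insert, mem_insert, mem_image, not_or, not_or] at h1
    exact hF v hv h1.1 h1.2.1 fun i hi h2 => h1.2.2 ⟨i, hi, h2.symm⟩

private lemma sum32 (hd : 0 < g.natDegree) (F : (Fin 4 →₀ ℕ) → ℕ)
    (hF : ∀ v ∈ (ell4 (cubF a₂ a₄ a₆) g).support, v ≠ cv g.natDegree 0 0 0 → v ≠ cv 0 0 0 1 →
      (∀ i ∈ II32 m e a₂ a₄ a₆, v ≠ zv32 m e i) → F v = 0) :
    ∑ v ∈ (ell4 (cubF a₂ a₄ a₆) g).support, F v =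
      F (cv g.natDegree 0 0 0) + (F (cv 0 0 0 1) + ∑ i ∈ II32 m e a₂ a₄ a₆, F (zv32 m e i)) :=
  prod32 (R := Multiplicative ℕ) hd (fun v => Multiplicative.ofAdd (F v)) hF

/-- the tight exponents -/
private lemma tight_iff32 (h : CubicType p m e a₂ a₄ a₆ g) {r N : ℕ} (hN : N = e * g.natDegree * r) (hN0 : 0 < N)
    (hp : p - 1 = 2 * N) {t M : ℕ} (ht : t < g.natDegree) (hM : M + m * r = 2 * e * r * (t + 1))
    (n : (Fin 4 →₀ ℕ) → ℕ) :
    IsTight (cubWt h) (lowv N t) (lowv N t) n ↔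
      (∀ v ∈ (ell4 (cubF a₂ a₄ a₆) g).support, v ≠ cv g.natDegree 0 0 0 → v ≠ cv 0 0 0 1 →
        (∀ i ∈ II32 m e a₂ a₄ a₆, v ≠ zv32 m e i) → n v = 0) ∧ n (cv g.natDegree 0 0 0) = M ∧ n (cv 0 0 0 1) = N ∧
      ∑ i ∈ II32 m e a₂ a₄ a₆, n (zv32 m e i) = N ∧ ∑ i ∈ II32 m e a₂ a₄ a₆, n (zv32 m e i) * i = 2 * N := by
  classical
  have he := h.e_pos
  have hd := h.g_pos
  constructor
  · intro hn
    obtain ⟨-, h1, h2, h3, h4, h5⟩ := cub_tight h hN hN0 hp ht ht hn
    have h6 : ∀ v ∈ (ell4 (cubF a₂ a₄ a₆) g).support, v ≠ cv g.natDegree 0 0 0 → v ≠ cv 0 0 0 1 →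
        (∀ i ∈ II32 m e a₂ a₄ a₆, v ≠ zv32 m e i) → n v = 0 := by
      intro v hv n1 n2 n3
      by_contra hnv
      rcases (h5 v hv).2 hnv with rfl | rfl | ⟨i, j, hi, hj, rfl⟩
      · exact n1 rfl
      · exact n2 rfl
      · obtain ⟨a1, a2⟩ := zv_of32 he hi hj hv
        exact n3 i a1 a2
    rw [sum32 (m := m) (e := e) hd _ (fun v hv n1 n2 n3 => by rw [h6 v hv n1 n2 n3, zero_mul])] at h1 h2 h3
    unfold zv32 at h1 h2 h3
    simp only [cv_1, cv_2, cv_3, mul_zero, mul_one, zero_add, add_zero, sum_const_zero] at h1 h2 h3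
    refine ⟨h6, by omega, h3, h2, h1⟩
  · rintro ⟨h6, h7, h3, h2, h1⟩
    obtain ⟨q, hq⟩ : ∃ q, m + q = 2 * e := ⟨2 * e - m, by have := h.m_le; omega⟩
    have hs : ∀ F : (Fin 4 →₀ ℕ) → ℕ, ∑ v ∈ (ell4 (cubF a₂ a₄ a₆) g).support, n v * F v =
        M * F (cv g.natDegree 0 0 0) + (N * F (cv 0 0 0 1) + ∑ i ∈ II32 m e a₂ a₄ a₆, n (zv32 m e i) * F (zv32 m e i)) := by
      intro F
      rw [sum32 (m := m) (e := e) hd _ (fun v hv n1 n2 n3 => by rw [h6 v hv n1 n2 n3, zero_mul]), h7, h3]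
    have c1 := hs (fun v => v 1)
    have c2 := hs (fun v => v 2)
    have c3 := hs (fun v => v 3)
    have c0 := hs (fun v => v 0)
    have cm := hs (fun _ => 1)
    unfold zv32 at c0 c1 c2 c3
    simp only [cv_0, cv_1, cv_2, cv_3, mul_zero, mul_one, zero_add, add_zero, sum_const_zero] at c0 c1 c2 c3
    unfold zv32 at h1 h2 cm
    simp only [mul_one] at cm
    rw [h1] at c1
    rw [h2] at c2 cm
    -- the degree in `t`
    have c0' : ∑ v ∈ (ell4 (cubF a₂ a₄ a₆) g).support, n v * v 0 = 2 * N * (t + 1) := by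
      rw [c0]
      have h8 : e * ∑ i ∈ II32 m e a₂ a₄ a₆, n (cv (m * (3 - i) / e) i 1 0) * (m * (3 - i) / e) = m * N := by
        have h9 : ∀ i ∈ II32 m e a₂ a₄ a₆, e * (n (cv (m * (3 - i) / e) i 1 0) * (m * (3 - i) / e)) +
            m * (n (cv (m * (3 - i) / e) i 1 0) * i) = 3 * m * n (cv (m * (3 - i) / e) i 1 0) := by
          intro i hi
          have h10 := (coe32 (g := g) hi).1
          have hi4 := (mem_II32.1 hi).1
          have h11 : m * (3 - i) + m * i = 3 * m := by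
            rw [← Nat.mul_add, Nat.sub_add_cancel (by omega)]
            ring
          calc _ = n (cv (m * (3 - i) / e) i 1 0) * (e * (m * (3 - i) / e) + m * i) := by ring
            _ = n (cv (m * (3 - i) / e) i 1 0) * (3 * m) := by rw [h10, h11]
            _ = _ := by ring
        have h10 := sum_congr rfl h9
        rw [sum_add_distrib, ← mul_sum, ← mul_sum, ← mul_sum, h1, h2] at h10
        have e1 : m * (2 * N) = 2 * (m * N) := by ring
        have e2 : 3 * m * N = 3 * (m * N) := by ring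
        omega
      have h9 : e * (M * g.natDegree + ∑ i ∈ II32 m e a₂ a₄ a₆, n (cv (m * (3 - i) / e) i 1 0) * (m * (3 - i) / e)) =
          e * (2 * N * (t + 1)) := by
        rw [mul_add, h8]
        have e1 : e * (M * g.natDegree) + m * N = e * g.natDegree * (M + m * r) := by
          rw [hN]
          ring
        rw [e1, hM, hN]
        ring
      exact Nat.eq_of_mul_eq_mul_left he h9
    refine ⟨?_, ?_⟩
    · have hvec : (∑ v ∈ (ell4 (cubF a₂ a₄ a₆) g).support, n v • v) = lowv N t := by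
        have hco : ∀ j, (∑ v ∈ (ell4 (cubF a₂ a₄ a₆) g).support, n v • v) j =
            ∑ v ∈ (ell4 (cubF a₂ a₄ a₆) g).support, n v * v j := by
          intro j
          rw [Finsupp.finsetSum_apply]
          rfl
        refine cv_ext ?_ ?_ ?_ ?_
        · rw [hco, c0']
          rfl
        · rw [hco, c1]
          rfl
        · rw [hco, c2]
          rfl
        · rw [hco, c3]
          rfl
      rw [hvec, ← succ_nsmul]
      congr 1
      omega
    · rw [cub_w_low h N t q hq, cub_l]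
      have cm' : ∑ v ∈ (ell4 (cubF a₂ a₄ a₆) g).support, n v = M + (N + N) := by
        rw [← cm]
      have hpp : p = 2 * N + 1 := by omega
      rw [cm', hp, hpp]
      have e1 : e * g.natDegree * (M + (N + N)) = N * (2 * (e * g.natDegree) + (2 * e * t + q)) := by
        have e2 : e * g.natDegree * M + m * N = N * (2 * e * (t + 1)) := by
          have : e * g.natDegree * M + m * N = e * g.natDegree * (M + m * r) := by
            rw [hN]
            ring
          rw [this, hM, hN]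
          ring
        have e3 : N * (2 * e * (t + 1)) = N * (2 * e * t + q) + m * N := by
          have : 2 * e * (t + 1) = 2 * e * t + q + m := by
            have : 2 * e * (t + 1) = 2 * e * t + 2 * e := by ring
            omega
          rw [this]
          ring
        have e4 : e * g.natDegree * M = N * (2 * e * t + q) := by omega
        rw [mul_add, e4]
        ring
      calc N * (2 * (e * g.natDegree) + (2 * e * t + q)) + 2 * N * (e * g.natDegree) * (M + (N + N)) =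
          N * (2 * (e * g.natDegree) + (2 * e * t + q)) + 2 * N * (e * g.natDegree * (M + (N + N))) := by ring
        _ = _ := by rw [e1]; ring

private lemma fact_ne32 [Fact p.Prime] [CharP k p] {N : ℕ} (hN : N < p) : ((N.factorial : ℕ) : k) ≠ 0 := by
  intro h
  rw [CharP.cast_eq_zero_iff k p, (Fact.out : p.Prime).dvd_factorial] at h
  omega

private lemma cast_pow32 [Fact p.Prime] [CharP k p] (n i : ℕ) : ((n : k)) ^ p ^ i = n := by
  have := map_natCast (iterateFrobenius k p i) n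
  rwa [iterateFrobenius_def] at this

/-- the multinomial theorem -/
private lemma multi32 [Fact p.Prime] [CharP k p] {N : ℕ} (hNp : N < p) (i : ℕ) :
    (N.factorial : k) * ∑ κ ∈ (piAntidiag (II32 m e a₂ a₄ a₆) N).filter (fun κ => ∑ j ∈ II32 m e a₂ a₄ a₆, κ j * j = 2 * N),
      ∏ j ∈ II32 m e a₂ a₄ a₆, cc32 m e a₂ a₄ a₆ j ^ (p ^ i * κ j) * (((κ j).factorial : ℕ) : k)⁻¹ =
      ((leadCubic m e a₂ a₄ a₆ ^ N).coeff (2 * N)) ^ p ^ i := by
  classical
  set I := II32 m e a₂ a₄ a₆ with hI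
  set c := cc32 m e a₂ a₄ a₆ with hc
  have h1 : (leadCubic m e a₂ a₄ a₆ ^ N).coeff (2 * N) =
      ∑ κ ∈ (piAntidiag I N).filter (fun κ => ∑ j ∈ I, κ j * j = 2 * N),
        ((Nat.multinomial I κ : ℕ) : k) * ∏ j ∈ I, c j ^ κ j := by
    rw [lead32, sum_pow_eq_sum_piAntidiag, Polynomial.finsetSum_coeff, sum_filter]
    refine sum_congr rfl fun κ _ => ?_
    have h2 : ∏ j ∈ II32 m e a₂ a₄ a₆, (Polynomial.C (cc32 m e a₂ a₄ a₆ j) * Polynomial.X ^ j : Polynomial k) ^ κ j =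
        Polynomial.C (∏ j ∈ I, c j ^ κ j) * Polynomial.X ^ (∑ j ∈ I, κ j * j) := by
      simp_rw [mul_pow, prod_mul_distrib, ← pow_mul, map_prod, map_pow]
      congr 1
      rw [prod_pow_eq_pow_sum]
      congr 1
      exact sum_congr rfl fun j _ => mul_comm _ _
    rw [h2]
    have h3 : ((Nat.multinomial I κ : ℕ) : Polynomial k) = Polynomial.C ((Nat.multinomial I κ : ℕ) : k) := by
      rw [map_natCast]
    rw [h3, ← mul_assoc, ← map_mul, Polynomial.coeff_C_mul, Polynomial.coeff_X_pow]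
    by_cases h4 : ∑ j ∈ I, κ j * j = 2 * N
    · rw [if_pos h4.symm, if_pos h4, mul_one]
    · rw [if_neg (fun h5 => h4 h5.symm), if_neg h4, mul_zero]
  have h5 : ∀ x : k, x ^ p ^ i = iterateFrobenius k p i x := fun x => by rw [iterateFrobenius_def]
  rw [h1, h5, map_sum, mul_sum]
  refine sum_congr rfl fun κ hκ => ?_
  rw [mem_filter, mem_piAntidiag] at hκ
  obtain ⟨⟨hκ1, -⟩, -⟩ := hκ
  have hle : ∀ j ∈ I, κ j ≤ N := by
    intro j hj
    rw [← hκ1]
    exact single_le_sum (fun _ _ => Nat.zero_le _) hj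
  have hne : ∏ j ∈ I, (((κ j).factorial : ℕ) : k) ≠ 0 :=
    prod_ne_zero_iff.2 fun j hj => fact_ne32 ((hle j hj).trans_lt hNp)
  rw [map_mul, ← h5, cast_pow32, map_prod, prod_mul_distrib, prod_inv_distrib]
  have h6 : (N.factorial : k) = (∏ j ∈ I, (((κ j).factorial : ℕ) : k)) * ((Nat.multinomial I κ : ℕ) : k) := by
    have h7 := Nat.multinomial_spec I κ
    have h8 : I.sum κ = N := hκ1
    rw [h8] at h7
    rw [← h7]
    push_cast
    ring
  rw [h6]
  have h9 : ∏ j ∈ I, c j ^ (p ^ i * κ j) = ∏ j ∈ I, iterateFrobenius k p i (c j ^ κ j) := by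
    refine prod_congr rfl fun j _ => ?_
    rw [← h5, ← pow_mul, mul_comm (κ j)]
  rw [h9]
  field_simp

/-- the leading coefficients -/
private lemma entry32 [Fact p.Prime] [CharP k p] (h : CubicType p m e a₂ a₄ a₆ g) {r N : ℕ}
    (hN : N = e * g.natDegree * r) (hN0 : 0 < N)
    (hp : p - 1 = 2 * N) {t : ℕ} (ht : t < g.natDegree) (i : ℕ) :
    lead (ell4 (cubF a₂ a₄ a₆) g) (cubWt h) i (lowv N t) (lowv N t) ≠ 0 := by
  classical
  have hp0 : 0 < p := (Fact.out : p.Prime).pos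
  have hd := h.g_pos
  have he := h.e_pos
  have hpp : p = 2 * N + 1 := by omega
  have hNp : N < p := by omega
  obtain ⟨M, hM⟩ : ∃ M, M + m * r = 2 * e * r * (t + 1) := by
    refine ⟨2 * e * r * (t + 1) - m * r, Nat.sub_add_cancel ?_⟩
    have h1 : m * r ≤ 2 * e * r := Nat.mul_le_mul_right _ h.m_le
    have h2 : 2 * e * r * 1 ≤ 2 * e * r * (t + 1) := Nat.mul_le_mul_left _ (by omega)
    omega
  have hMp : M < p := by
    have h8 : 2 * e * r * (t + 1) ≤ 2 * e * r * g.natDegree := Nat.mul_le_mul_left _ ht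
    have h9 : 2 * e * r * g.natDegree = 2 * N := by rw [hN]; ring
    omega
  set A := (ell4 (cubF a₂ a₄ a₆) g).support with hA
  set I := II32 m e a₂ a₄ a₆ with hI
  set f := ell4 (cubF a₂ a₄ a₆) g with hf
  obtain ⟨m1, m2, m3⟩ := mem_supp32 (m := m) (e := e) (a₂ := a₂) (a₄ := a₄) (a₆ := a₆) hd
  -- the extension by zero
  set ext : (A → Fin p) → (Fin 4 →₀ ℕ) → ℕ := fun n v => if h : v ∈ A then (n ⟨v, h⟩ : ℕ) else 0 with hext
  have hext1 : ∀ (n : A → Fin p) (v : A), ext n v = n v := fun n v => dif_pos v.2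
  have hiff := fun n : A → Fin p => tight_iff32 h hN hN0 hp ht hM (ext n)
  -- the functions
  set mf : (ℕ → ℕ) → (Fin 4 →₀ ℕ) → ℕ := fun κ v => if v = cv g.natDegree 0 0 0 then M else
    if v = cv 0 0 0 1 then N else if v 1 ∈ I ∧ v = zv32 m e (v 1) then κ (v 1) else 0 with hmf
  have zne1 : ∀ j, zv32 m e j ≠ cv g.natDegree 0 0 0 := fun j => cv_ne (by omega)
  have zne2 : ∀ j, zv32 m e j ≠ cv 0 0 0 1 := fun j => cv_ne (by omega)
  have hmf1 : ∀ κ, mf κ (cv g.natDegree 0 0 0) = M := fun κ => if_pos rfl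
  have hmf2 : ∀ κ, mf κ (cv 0 0 0 1) = N := fun κ =>
    (if_neg (cv_ne (by omega))).trans (if_pos rfl)
  have hmf3 : ∀ κ, ∀ j ∈ I, mf κ (zv32 m e j) = κ j := fun κ j hj =>
    (if_neg (zne1 j)).trans ((if_neg (zne2 j)).trans (if_pos ⟨hj, rfl⟩))
  have hmf4 : ∀ κ v, v ≠ cv g.natDegree 0 0 0 → v ≠ cv 0 0 0 1 → (∀ i ∈ I, v ≠ zv32 m e i) → mf κ v = 0 := by
    intro κ v n1 n2 n3
    exact (if_neg n1).trans ((if_neg n2).trans (if_neg (fun h5 => n3 _ h5.1 h5.2)))
  have hlt : ∀ κ ∈ piAntidiag I N, ∀ v, mf κ v < p := by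
    intro κ hκ v
    rw [mem_piAntidiag] at hκ
    rw [hmf]
    simp only
    split_ifs with b1 b2 b3
    · exact hMp
    · exact hNp
    · have : κ (v 1) ≤ N := by
        rw [← hκ.1]
        exact single_le_sum (fun _ _ => Nat.zero_le _) b3.1
      omega
    · exact hp0
  set bwd : (ℕ → ℕ) → (A → Fin p) := fun κ v => ⟨mf κ v % p, Nat.mod_lt _ hp0⟩ with hbwd
  have hbe : ∀ κ ∈ piAntidiag I N, ∀ v ∈ A, ext (bwd κ) v = mf κ v := by
    intro κ hκ v hv
    have h1 := hext1 (bwd κ) ⟨v, hv⟩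
    rw [h1]
    exact Nat.mod_eq_of_lt (hlt κ hκ v)
  obtain ⟨fwd, hfwd1, hfwd2⟩ : ∃ fwd : (A → Fin p) → ℕ → ℕ, (∀ n, ∀ j ∈ I, fwd n j = ext n (zv32 m e j)) ∧
      ∀ n j, j ∉ I → fwd n j = 0 :=
    ⟨fun n j => if j ∈ I then ext n (zv32 m e j) else 0, fun n j hj => if_pos hj, fun n j hj => if_neg hj⟩
  have key : lead f (cubWt h) i (lowv N t) (lowv N t) = (f.coeff (cv g.natDegree 0 0 0) ^ (p ^ i * M) *
      ((M.factorial : ℕ) : k)⁻¹ * ((N.factorial : ℕ) : k)⁻¹) *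
      ∑ κ ∈ (piAntidiag I N).filter (fun κ => ∑ j ∈ I, κ j * j = 2 * N),
        ∏ j ∈ I, cc32 m e a₂ a₄ a₆ j ^ (p ^ i * κ j) * (((κ j).factorial : ℕ) : k)⁻¹ := by
    unfold lead
    rw [mul_sum, ← sum_filter]
    refine sum_nbij' fwd bwd ?_ ?_ ?_ ?_ ?_
    · intro n hn
      rw [mem_filter] at hn
      obtain ⟨b1, b2, b3, b4, b5⟩ := (hiff n).1 hn.2
      rw [mem_filter, mem_piAntidiag]
      refine ⟨⟨?_, ?_⟩, ?_⟩
      · rw [← b4]
        exact sum_congr rfl fun j hj => hfwd1 n j hj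
      · intro j hj
        by_contra hc
        exact hj (hfwd2 n j hc)
      · rw [← b5]
        exact sum_congr rfl fun j hj => congrArg (fun x => x * j) (hfwd1 n j hj)
    · intro κ hκ
      rw [mem_filter] at hκ
      obtain ⟨hκ1, hκ2⟩ := hκ
      rw [mem_filter]
      refine ⟨mem_univ _, (hiff (bwd κ)).2 ⟨?_, ?_, ?_, ?_, ?_⟩⟩
      · intro v hv n1 n2 n3
        rw [hbe κ hκ1 v hv]
        exact hmf4 κ v n1 n2 n3
      · rw [hbe κ hκ1 _ m1]
        exact hmf1 κ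
      · rw [hbe κ hκ1 _ m2]
        exact hmf2 κ
      · rw [← (mem_piAntidiag.1 hκ1).1]
        exact sum_congr rfl fun j hj => by rw [hbe κ hκ1 _ (m3 j hj), hmf3 κ j hj]
      · rw [← hκ2]
        exact sum_congr rfl fun j hj => by rw [hbe κ hκ1 _ (m3 j hj), hmf3 κ j hj]
    · intro n hn
      rw [mem_filter] at hn
      obtain ⟨b1, b2, b3, b4, b5⟩ := (hiff n).1 hn.2
      funext v
      apply Fin.ext
      show mf (fwd n) v % p = n v
      have hv : mf (fwd n) v = n v := by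
        rw [← hext1]
        by_cases n1 : (v : Fin 4 →₀ ℕ) = cv g.natDegree 0 0 0
        · rw [n1]
          exact (hmf1 _).trans b2.symm
        by_cases n2 : (v : Fin 4 →₀ ℕ) = cv 0 0 0 1
        · rw [n2]
          exact (hmf2 _).trans b3.symm
        by_cases n3 : ∃ j ∈ I, (v : Fin 4 →₀ ℕ) = zv32 m e j
        · obtain ⟨j, hj, hvj⟩ := n3
          rw [hvj]
          exact (hmf3 _ j hj).trans (hfwd1 n j hj)
        · push Not at n3
          exact (hmf4 _ _ n1 n2 n3).trans (b1 v v.2 n1 n2 n3).symm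
      rw [hv]
      exact Nat.mod_eq_of_lt (n v).2
    · intro κ hκ
      rw [mem_filter] at hκ
      obtain ⟨hκ1, hκ2⟩ := hκ
      funext j
      by_cases hj : j ∈ I
      · rw [hfwd1 _ j hj, hbe κ hκ1 _ (m3 j hj), hmf3 κ j hj]
      · rw [hfwd2 _ j hj]
        by_contra hc
        exact hj ((mem_piAntidiag.1 hκ1).2 j (fun h5 => hc h5.symm))
    · intro n hn
      rw [mem_filter] at hn
      obtain ⟨b1, b2, b3, b4, b5⟩ := (hiff n).1 hn.2
      have h1 : ∏ v : A, (f.coeff (v : Fin 4 →₀ ℕ) ^ (p ^ i * (n v : ℕ)) * (((n v : ℕ).factorial : ℕ) : k)⁻¹) =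
          ∏ v ∈ A, (f.coeff v ^ (p ^ i * ext n v) * (((ext n v).factorial : ℕ) : k)⁻¹) := by
        rw [← prod_coe_sort A (fun v => f.coeff v ^ (p ^ i * ext n v) * (((ext n v).factorial : ℕ) : k)⁻¹)]
        exact prod_congr rfl fun v _ => by rw [hext1]
      refine h1.trans ?_
      rw [prod32 (m := m) (e := e) hd _ (fun v hv n1 n2 n3 => by
        rw [b1 v hv n1 n2 n3, mul_zero, pow_zero, Nat.factorial_zero, Nat.cast_one, inv_one, mul_one]), b2, b3]
      rw [cub_coeff_z, one_pow, one_mul, ← hI, ← mul_assoc]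
      congr 1
      refine prod_congr rfl fun j hj => ?_
      rw [hfwd1 n j hj, (coe32 hj).2]
  rw [key]
  have h1 := multi32 (m := m) (e := e) (a₂ := a₂) (a₄ := a₄) (a₆ := a₆) hNp i
  have h2 : ((leadCubic m e a₂ a₄ a₆ ^ N).coeff (2 * N)) ^ p ^ i ≠ 0 := by
    have h3 := h.ordinary
    have h4 : (p - 1) / 2 = N := by omega
    rw [h4, hp] at h3
    exact pow_ne_zero _ h3
  rw [← h1] at h2
  refine mul_ne_zero (mul_ne_zero (mul_ne_zero (pow_ne_zero _ ?_) (inv_ne_zero (fact_ne32 hMp)))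
    (inv_ne_zero (fact_ne32 hNp))) (right_ne_zero_of_mul h2)
  exact mem_support_iff.1 m1

theorem cub_blocks {p : ℕ} [Fact p.Prime] {k : Type} [Field k] [CharP k p] {m e : ℕ}
    {a₂ a₄ a₆ g : Polynomial k} (h : CubicType p m e a₂ a₄ a₆ g) (s : ℕ) :
    ∃ low : Finset (Fin 4 →₀ ℕ),
      Blocks (ell4 (cubF a₂ a₄ a₆) g) (cubWt h) (ellc p) s (2 * ((p - 1) * (cubWt h).l)) low ∧
      low.card = g.natDegree := by
  classical
  have he := h.e_pos
  have hd := h.g_pos
  obtain ⟨r, hr⟩ := h.dvd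
  obtain ⟨N, hN⟩ : ∃ N, N = e * g.natDegree * r := ⟨_, rfl⟩
  have hp : p - 1 = 2 * N := by rw [hr, hN]; ring
  have hp2 : 2 ≤ p := (Fact.out : p.Prime).two_le
  have hN0 : 0 < N := by omega
  obtain ⟨q, hq⟩ : ∃ q, m + q = 2 * e := ⟨2 * e - m, by have := h.m_le; omega⟩
  have hinj : Function.Injective (lowv N) := by
    intro t t' htt
    have h1 := (cv_inj htt).1
    have h2 := Nat.eq_of_mul_eq_mul_left (by omega) h1
    omega
  have hmem : ∀ U, U ∈ (range g.natDegree).image (lowv N) ↔ ∃ t, t < g.natDegree ∧ U = lowv N t := by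
    intro U
    rw [mem_image]
    constructor
    · rintro ⟨t, ht, rfl⟩
      exact ⟨t, mem_range.1 ht, rfl⟩
    · rintro ⟨t, ht, rfl⟩
      exact ⟨t, mem_range.2 ht, rfl⟩
  set low := (range g.natDegree).image (lowv N) with hlow
  have hwinj : ∀ U ∈ low, ∀ V ∈ low, (cubWt h).w U = (cubWt h).w V → U = V := by
    intro U hU V hV hw
    obtain ⟨t, ht, rfl⟩ := (hmem U).1 hU
    obtain ⟨t', ht', rfl⟩ := (hmem V).1 hV
    rw [cub_w_low h N t q hq, cub_w_low h N t' q hq] at hw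
    have h1 := Nat.eq_of_mul_eq_mul_left hN0 hw
    have h2 : 2 * e * t = 2 * e * t' := by omega
    rw [Nat.eq_of_mul_eq_mul_left (by omega) h2]
  have hsub : ∀ j, Subsingleton (low.filter fun U => (cubWt h).w U = j) := by
    intro j
    refine ⟨fun U V => Subtype.ext ?_⟩
    have hU := mem_filter.1 U.2
    have hV := mem_filter.1 V.2
    exact hwinj U hU.1 V hV.1 (hU.2.trans hV.2.symm)
  have hent : ∀ j i (U : low.filter fun U => (cubWt h).w U = j),
      leadMat (ell4 (cubF a₂ a₄ a₆) g) (cubWt h) low j i U U ≠ 0 := by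
    intro j i U
    obtain ⟨t, ht, hU⟩ := (hmem U).1 (mem_filter.1 U.2).1
    unfold leadMat
    rw [hU]
    exact entry32 h hN hN0 hp ht i
  have hprod : ∀ j (U : low.filter fun U => (cubWt h).w U = j),
      mprod (leadMat (ell4 (cubF a₂ a₄ a₆) g) (cubWt h) low j) s U U ≠ 0 := by
    intro j U
    induction s with
    | zero =>
      show (1 : Matrix _ _ k) U U ≠ 0
      rw [Matrix.one_apply_eq]
      exact one_ne_zero
    | succ s ih =>
      show (leadMat (ell4 (cubF a₂ a₄ a₆) g) (cubWt h) low j s *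
        mprod (leadMat (ell4 (cubF a₂ a₄ a₆) g) (cubWt h) low j) s) U U ≠ 0
      have : Subsingleton (low.filter fun U => (cubWt h).w U = j) := hsub j
      rw [Matrix.mul_apply, Fintype.sum_subsingleton _ U]
      exact mul_ne_zero (hent j s U) ih
  refine ⟨low, ⟨?_, ?_, ?_, ?_, ?_⟩, ?_⟩
  · intro U
    rw [hmem]
    exact (cub_low h hN hN0 hp U).symm
  · intro U hU V hV n hn
    obtain ⟨t, ht, rfl⟩ := (hmem U).1 hU
    obtain ⟨t', ht', rfl⟩ := (hmem V).1 hV
    obtain ⟨h1, -, -, -, -, h2⟩ := cub_tight h hN hN0 hp ht ht' hn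
    exact ⟨by rw [h1], fun v hv => (h2 v hv).1⟩
  · intro U Z hU _
    exact cub_bound h hN0 hp U Z hU
  · intro j
    have := hsub j
    rcases isEmpty_or_nonempty (low.filter fun U => (cubWt h).w U = j) with h1 | ⟨⟨U⟩⟩
    · rw [Matrix.det_isEmpty]
      exact one_ne_zero
    · rw [Matrix.det_eq_elem_of_subsingleton _ U]
      exact hprod j U
  · intro j
    have := hsub j
    rcases isEmpty_or_nonempty (low.filter fun U => (cubWt h).w U = j) with h1 | ⟨⟨U⟩⟩
    · unfold Matrix.charpoly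
      rw [Matrix.det_isEmpty]
      exact Polynomial.separable_one
    · unfold Matrix.charpoly
      rw [Matrix.det_eq_elem_of_subsingleton _ U, Matrix.charmatrix_apply_eq]
      exact Polynomial.separable_X_sub_C
  · rw [hlow, card_image_of_injective _ hinj, card_range]

theorem cubic_blocks {p : ℕ} [Fact p.Prime] {k : Type} [Field k] [CharP k p] {m e : ℕ}
    {a₂ a₄ a₆ g : Polynomial k} (h : CubicType p m e a₂ a₄ a₆ g) (s : ℕ) :
    ∃ (C : (Fin 4 →₀ ℕ) → Prop) (ω : Weight p (ell4 (cubF a₂ a₄ a₆) g).support C)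
      (low : Finset (Fin 4 →₀ ℕ)), 0 < ω.l ∧
      Blocks (ell4 (cubF a₂ a₄ a₆) g) ω (ellc p) s (2 * ((p - 1) * ω.l)) low ∧
      low.card = g.natDegree := by
  obtain ⟨low, h1, h2⟩ := cub_blocks h s
  exact ⟨_, cubWt h, low, (cubWt h).l_pos, h1, h2⟩

end Pool.Agent.Helper9.WS
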