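import Pool.Agent.Helper32.WS.CubDefs

/-!
WS-22: the low vectors and the tight equations of `cubic_blocks`.
-/

set_option autoImplicit false

open MvPolynomial Finset

namespace Pool.Agent.Helper9.WS

variable {p m e : ℕ} {k : Type} [Field k] {a₂ a₄ a₆ g : Polynomial k}

/-- odd multiples of `N` -/
private lemma oddA32 {N x : ℕ} (hN : 0 < N) (h : 2 * N ∣ x + N) : ∃ y, x = N * (2 * y + 1) := by
  obtain ⟨c, hc⟩ := h
  have hc0 : c ≠ 0 := by
    rintro rfl
    omega
  obtain ⟨y, rfl⟩ := Nat.exists_eq_succ_of_ne_zero hc0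
  refine ⟨y, ?_⟩
  have h1 : N * (2 * y + 1) + N = 2 * N * (y + 1) := by ring
  have h2 : x + N = 2 * N * (y + 1) := hc
  omega

lemma cub_w (h : CubicType p m e a₂ a₄ a₆ g) (U : Fin 4 →₀ ℕ) :
    (cubWt h).w U = e * g.natDegree * (U 2 + U 3) + (e * U 0 + m * U 1 - 3 * m * U 2) := rfl

lemma cub_l (h : CubicType p m e a₂ a₄ a₆ g) : (cubWt h).l = e * g.natDegree := rfl

/-- the weight of the low vectors -/
lemma cub_w_low (h : CubicType p m e a₂ a₄ a₆ g) (N t q : ℕ) (hq : m + q = 2 * e) :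
    (cubWt h).w (lowv N t) = N * (2 * (e * g.natDegree) + (2 * e * t + q)) := by
  rw [cub_w]
  unfold lowv
  rw [cv_0, cv_1, cv_2, cv_3]
  have h1 : e * (2 * N * (t + 1)) + m * (2 * N) = N * (2 * e * t + q) + 3 * m * N := by
    have : e * (2 * N * (t + 1)) = N * (2 * e * t) + N * (2 * e) := by ring
    rw [this, ← hq]
    ring
  have h2 : e * (2 * N * (t + 1)) + m * (2 * N) - 3 * m * N = N * (2 * e * t + q) := by omega
  rw [h2]
  ring

theorem cub_low (h : CubicType p m e a₂ a₄ a₆ g) {r N : ℕ} (hN : N = e * g.natDegree * r) (hN0 : 0 < N)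
    (hp : p - 1 = 2 * N) (U : Fin 4 →₀ ℕ) :
    ((∀ j, U j ≠ 0 ∧ (p - 1) ∣ U j + ellc p j) ∧ U 1 ≤ 3 * U 2 ∧ (cubWt h).w U < 2 * ((p - 1) * (cubWt h).l)) ↔
      ∃ t, t < g.natDegree ∧ U = lowv N t := by
  have hc0 : ellc p 0 = 0 := rfl
  have hc1 : ellc p 1 = 0 := rfl
  have hc2 : ellc p 2 = N := by
    show (p - 1) / 2 = N
    omega
  have hc3 : ellc p 3 = N := by
    show (p - 1) / 2 = N
    omega
  obtain ⟨q, hq⟩ : ∃ q, m + q = 2 * e := ⟨2 * e - m, by have := h.m_le; omega⟩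
  have he := h.e_pos
  have hd := h.g_pos
  have hm := h.m_pos
  rw [cub_l, hp]
  constructor
  · rintro ⟨h1, h2, h3⟩
    obtain ⟨a0, b0⟩ := h1 0
    obtain ⟨a1, b1⟩ := h1 1
    obtain ⟨a2, b2⟩ := h1 2
    obtain ⟨a3, b3⟩ := h1 3
    rw [hc0, add_zero] at b0
    rw [hc1, add_zero] at b1
    rw [hc2] at b2
    rw [hc3] at b3
    obtain ⟨t, ht⟩ := b0
    obtain ⟨x, hx⟩ := b1
    obtain ⟨z, hz⟩ := oddA32 hN0 b2
    obtain ⟨z', hz'⟩ := oddA32 hN0 b3
    have ht0 : t ≠ 0 := by
      rintro rfl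
      exact a0 (by rw [ht, mul_zero])
    have hx0 : x ≠ 0 := by
      rintro rfl
      exact a1 (by rw [hx, mul_zero])
    have h4 : e * g.natDegree * (U 2 + U 3) < e * g.natDegree * (N * 4) := by
      have h5 : 2 * (2 * N * (e * g.natDegree)) = e * g.natDegree * (N * 4) := by ring
      rw [cub_w] at h3
      omega
    have h5 : U 2 + U 3 < N * 4 := Nat.lt_of_mul_lt_mul_left h4
    have h6 : N * (2 * z + 1 + (2 * z' + 1)) < N * 4 := by
      have : N * (2 * z + 1 + (2 * z' + 1)) = U 2 + U 3 := by rw [hz, hz']; ring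
      omega
    have h7 : 2 * z + 1 + (2 * z' + 1) < 4 := Nat.lt_of_mul_lt_mul_left h6
    have hz0 : z = 0 := by omega
    have hz0' : z' = 0 := by omega
    rw [hz0] at hz
    rw [hz0'] at hz'
    simp only [mul_zero, zero_add, mul_one] at hz hz'
    have h8 : x = 1 := by
      rw [hx, hz] at h2
      have h9 : N * (2 * x) ≤ N * 3 := by
        have e1 : N * (2 * x) = 2 * N * x := by ring
        omega
      have h10 := Nat.le_of_mul_le_mul_left h9 hN0
      omega
    rw [h8, mul_one] at hx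
    obtain ⟨t', rfl⟩ := Nat.exists_eq_succ_of_ne_zero ht0
    have hU : U = lowv N t' := cv_ext ht hx hz hz'
    refine ⟨t', ?_, hU⟩
    rw [hU, cub_w_low h N t' q hq] at h3
    have h9 : N * (2 * (e * g.natDegree) + (2 * e * t' + q)) < N * (4 * (e * g.natDegree)) := by
      have : 2 * (2 * N * (e * g.natDegree)) = N * (4 * (e * g.natDegree)) := by ring
      omega
    have h10 := Nat.lt_of_mul_lt_mul_left h9
    have h11 : 2 * e * t' < 2 * e * g.natDegree := by
      have : 2 * e * g.natDegree = 2 * (e * g.natDegree) := by ring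
      omega
    exact Nat.lt_of_mul_lt_mul_left h11
  · rintro ⟨t, ht, rfl⟩
    refine ⟨?_, ?_, ?_⟩
    · intro j
      fin_cases j
      · change 2 * N * (t + 1) ≠ 0 ∧ 2 * N ∣ 2 * N * (t + 1) + 0
        exact ⟨by positivity, ⟨t + 1, by ring⟩⟩
      · change 2 * N ≠ 0 ∧ 2 * N ∣ 2 * N + 0
        exact ⟨by positivity, ⟨1, by ring⟩⟩
      · change N ≠ 0 ∧ 2 * N ∣ N + ellc p 2
        rw [hc2]
        exact ⟨by positivity, ⟨1, by ring⟩⟩
      · change N ≠ 0 ∧ 2 * N ∣ N + ellc p 3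
        rw [hc3]
        exact ⟨by positivity, ⟨1, by ring⟩⟩
    · unfold lowv
      rw [cv_1, cv_2]
      omega
    · rw [cub_w_low h N t q hq]
      have h9 : 2 * e * (t + 1) ≤ 2 * e * g.natDegree := Nat.mul_le_mul_left _ ht
      have h10 : 2 * (2 * N * (e * g.natDegree)) = N * (4 * (e * g.natDegree)) := by ring
      rw [h10]
      refine Nat.mul_lt_mul_of_pos_left ?_ hN0
      have e1 : 2 * e * (t + 1) = 2 * e * t + 2 * e := by ring
      have e2 : 2 * e * g.natDegree = 2 * (e * g.natDegree) := by ring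
      omega

/-- the tight equations -/
theorem cub_tight (h : CubicType p m e a₂ a₄ a₆ g) {r N : ℕ} (hN : N = e * g.natDegree * r) (hN0 : 0 < N)
    (hp : p - 1 = 2 * N) {t t' : ℕ} (ht : t < g.natDegree) (ht' : t' < g.natDegree) {n : (Fin 4 →₀ ℕ) → ℕ}
    (hn : IsTight (cubWt h) (lowv N t) (lowv N t') n) :
    t = t' ∧ ∑ v ∈ (ell4 (cubF a₂ a₄ a₆) g).support, n v * v 1 = 2 * N ∧
      ∑ v ∈ (ell4 (cubF a₂ a₄ a₆) g).support, n v * v 2 = N ∧
      ∑ v ∈ (ell4 (cubF a₂ a₄ a₆) g).support, n v * v 3 = N ∧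
      n (cv g.natDegree 0 0 0) + m * r = 2 * e * r * (t + 1) ∧
      ∀ v ∈ (ell4 (cubF a₂ a₄ a₆) g).support, n v < p ∧ (n v ≠ 0 → v = cv g.natDegree 0 0 0 ∨ v = cv 0 0 0 1 ∨
        ∃ i j, i ≤ 3 ∧ e * j = m * (3 - i) ∧ v = cv j i 1 0) := by
  classical
  obtain ⟨h1, h2⟩ := hn
  obtain ⟨q, hq⟩ : ∃ q, m + q = 2 * e := ⟨2 * e - m, by have := h.m_le; omega⟩
  have he := h.e_pos
  have hd := h.g_pos
  have hm := h.m_pos
  set d := g.natDegree with hdd
  set A := (ell4 (cubF a₂ a₄ a₆) g).support with hA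
  have hpp : p = 2 * N + 1 := by omega
  have hco : ∀ j, (p - 1) * (∑ v ∈ A, n v * v j) + lowv N t' j = p * lowv N t j := by
    intro j
    have h3 := DFunLike.congr_fun h1 j
    simpa [Finsupp.finsetSum_apply] using h3
  have q0 := hco 0
  have q1 := hco 1
  have q2 := hco 2
  have q3 := hco 3
  unfold lowv at q0 q1 q2 q3
  rw [cv_0, cv_0] at q0
  rw [cv_1, cv_1] at q1
  rw [cv_2, cv_2] at q2
  rw [cv_3, cv_3] at q3
  rw [cub_w_low h N t q hq, cub_w_low h N t' q hq, cub_l] at h2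
  set s0 := ∑ v ∈ A, n v * v 0 with hs0
  set s1 := ∑ v ∈ A, n v * v 1 with hs1
  set s2 := ∑ v ∈ A, n v * v 2 with hs2
  set s3 := ∑ v ∈ A, n v * v 3 with hs3
  set sm := ∑ v ∈ A, n v with hsm
  rw [hp, hpp] at q0 q1 q2 q3 h2
  have hpos : 0 < 2 * N := by omega
  have hs1' : s1 = 2 * N := by
    have : 2 * N * s1 = 2 * N * (2 * N) := by
      have e1 : (2 * N + 1) * (2 * N) = 2 * N * (2 * N) + 2 * N := by ring
      omega
    exact Nat.eq_of_mul_eq_mul_left hpos this
  have hs2' : s2 = N := by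
    have : 2 * N * s2 = 2 * N * N := by
      have e1 : (2 * N + 1) * N = 2 * N * N + N := by ring
      omega
    exact Nat.eq_of_mul_eq_mul_left hpos this
  have hs3' : s3 = N := by
    have : 2 * N * s3 = 2 * N * N := by
      have e1 : (2 * N + 1) * N = 2 * N * N + N := by ring
      omega
    exact Nat.eq_of_mul_eq_mul_left hpos this
  have hs0' : s0 + (t' + 1) = (2 * N + 1) * (t + 1) := by
    have : 2 * N * (s0 + (t' + 1)) = 2 * N * ((2 * N + 1) * (t + 1)) := by
      calc 2 * N * (s0 + (t' + 1)) = 2 * N * s0 + 2 * N * (t' + 1) := by ring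
        _ = _ := q0
        _ = _ := by ring
    exact Nat.eq_of_mul_eq_mul_left hpos this
  -- the weights
  have hw : e * s0 + m * s1 + e * d * s2 + e * d * s3 = e * d * sm + 3 * m * s2 := by
    have h3 : N * (2 * (e * d) + (2 * e * t' + q) + 2 * (e * d) * sm) =
        N * ((2 * N + 1) * (2 * (e * d) + (2 * e * t + q))) := by
      calc _ = N * (2 * (e * d) + (2 * e * t' + q)) + 2 * N * (e * d) * sm := by ring
        _ = _ := h2
        _ = _ := by ring
    have h4 := Nat.eq_of_mul_eq_mul_left hN0 h3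
    rw [hs1', hs2', hs3']
    zify at h4 hs0' hq ⊢
    have h5 : (q : ℤ) = 2 * e - m := by linarith
    rw [h5] at h4
    have h6 : (s0 : ℤ) = (2 * N + 1) * (t + 1) - (t' + 1) := by linarith
    rw [h6]
    linarith
  -- the defect vanishes
  have hdef : ∀ v ∈ A, n v * (e * v 0 + m * v 1 + e * d * v 2 + e * d * v 3) ≤ n v * (e * d + 3 * m * v 2) := by
    intro v hv
    refine Nat.mul_le_mul_left _ ?_
    rcases cub_sup h hv with ⟨j, hj, rfl⟩ | ⟨i, j, hi, hj, rfl⟩ | rfl
    · simp only [cv_0, cv_1, cv_2, cv_3, mul_zero, add_zero]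
      exact Nat.mul_le_mul_left _ hj
    · simp only [cv_0, cv_1, cv_2, cv_3, mul_zero, add_zero, mul_one]
      have : m * (3 - i) + m * i = 3 * m := by
        rw [← Nat.mul_add, Nat.sub_add_cancel hi]
        ring
      omega
    · simp only [cv_0, cv_1, cv_2, cv_3, mul_zero, add_zero, mul_one]
      omega
  have hdeq : ∑ v ∈ A, n v * (e * v 0 + m * v 1 + e * d * v 2 + e * d * v 3) =
      ∑ v ∈ A, n v * (e * d + 3 * m * v 2) := by
    have e1 : ∑ v ∈ A, n v * (e * v 0 + m * v 1 + e * d * v 2 + e * d * v 3) =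
        e * s0 + m * s1 + e * d * s2 + e * d * s3 := by
      rw [hs0, hs1, hs2, hs3, mul_sum, mul_sum, mul_sum, mul_sum, ← sum_add_distrib, ← sum_add_distrib,
        ← sum_add_distrib]
      exact sum_congr rfl fun v _ => by ring
    have e2 : ∑ v ∈ A, n v * (e * d + 3 * m * v 2) = e * d * sm + 3 * m * s2 := by
      rw [hsm, hs2, mul_sum, mul_sum, ← sum_add_distrib]
      exact sum_congr rfl fun v _ => by ring
    rw [e1, e2, hw]
  have hall := (sum_eq_sum_iff_of_le hdef).1 hdeq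
  have hlead : ∀ v ∈ A, n v ≠ 0 → v = cv d 0 0 0 ∨ v = cv 0 0 0 1 ∨
      ∃ i j, i ≤ 3 ∧ e * j = m * (3 - i) ∧ v = cv j i 1 0 := by
    intro v hv hnv
    have h4 := Nat.eq_of_mul_eq_mul_left (Nat.pos_of_ne_zero hnv) (hall v hv)
    rcases cub_sup h hv with ⟨j, hj, rfl⟩ | ⟨i, j, hi, hj, rfl⟩ | rfl
    · left
      simp only [cv_0, cv_1, cv_2, cv_3, mul_zero, add_zero] at h4
      rw [Nat.eq_of_mul_eq_mul_left he h4]
    · right
      right
      refine ⟨i, j, hi, ?_, rfl⟩
      simp only [cv_0, cv_1, cv_2, cv_3, mul_zero, add_zero, mul_one] at h4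
      have : m * (3 - i) + m * i = 3 * m := by
        rw [← Nat.mul_add, Nat.sub_add_cancel hi]
        ring
      omega
    · right
      left
      rfl
  -- the exponent of `t ^ d`
  have hdA : cv d 0 0 0 ∈ A := by
    rw [hA, mem_support_iff, cub_coeff_g, Polynomial.coeff_natDegree, Ne, Polynomial.leadingCoeff_eq_zero]
    rintro rfl
    simp at hdd
    omega
  have hsd : e * s0 + m * s1 = e * d * n (cv d 0 0 0) + 3 * m * s2 := by
    have e1 : e * s0 + m * s1 = ∑ v ∈ A, n v * (e * v 0 + m * v 1) := by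
      rw [hs0, hs1, mul_sum, mul_sum, ← sum_add_distrib]
      exact sum_congr rfl fun v _ => by ring
    have e2 : e * d * n (cv d 0 0 0) + 3 * m * s2 =
        ∑ v ∈ A, n v * ((if v = cv d 0 0 0 then e * d else 0) + 3 * m * v 2) := by
      simp_rw [mul_add, sum_add_distrib, mul_ite, mul_zero]
      rw [sum_ite_eq' A (cv d 0 0 0), if_pos hdA, hs2, mul_sum]
      congr 1
      · ring
      · exact sum_congr rfl fun v _ => by ring
    rw [e1, e2]
    refine sum_congr rfl fun v hv => ?_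
    by_cases hnv : n v = 0
    · rw [hnv, zero_mul, zero_mul]
    · congr 1
      rcases hlead v hv hnv with rfl | rfl | ⟨i, j, hi, hj, rfl⟩
      · rw [if_pos rfl, cv_0, cv_1, cv_2]
        ring
      · rw [if_neg (cv_ne (by omega)), cv_0, cv_1, cv_2]
        ring
      · rw [if_neg (cv_ne (by omega)), cv_0, cv_1, cv_2]
        have : m * (3 - i) + m * i = 3 * m := by
          rw [← Nat.mul_add, Nat.sub_add_cancel hi]
          ring
        omega
  have hs0d : s0 = d * (n (cv d 0 0 0) + m * r) := by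
    rw [hs1', hs2'] at hsd
    have h5 : e * s0 = e * (d * (n (cv d 0 0 0) + m * r)) := by
      have e1 : e * (d * (n (cv d 0 0 0) + m * r)) = e * d * n (cv d 0 0 0) + m * N := by
        rw [hN]
        ring
      have e2 : m * (2 * N) = 2 * (m * N) := by ring
      have e3 : 3 * m * N = 3 * (m * N) := by ring
      omega
    exact Nat.eq_of_mul_eq_mul_left he h5
  have htt : t = t' := by
    have h5 : (t : ℤ) - t' = d * ((n (cv d 0 0 0) + m * r : ℕ) - 2 * (e * r * (t + 1))) := by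
      have h6 := hs0'
      rw [hs0d, hN] at h6
      zify at h6
      push_cast
      linarith
    have h6 : (t : ℤ) - t' = 0 := by
      refine Int.eq_zero_of_abs_lt_dvd (m := (d : ℤ)) ⟨_, h5⟩ ?_
      rw [abs_lt]
      constructor <;> omega
    omega
  have hnd : n (cv d 0 0 0) + m * r = 2 * e * r * (t + 1) := by
    have h6 := hs0'
    rw [hs0d, ← htt] at h6
    have h7 : d * (n (cv d 0 0 0) + m * r) = d * (2 * e * r * (t + 1)) := by
      have e1 : (2 * N + 1) * (t + 1) = d * (2 * e * r * (t + 1)) + (t + 1) := by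
        rw [hN]
        ring
      omega
    exact Nat.eq_of_mul_eq_mul_left hd h7
  refine ⟨htt, hs1', hs2', hs3', hnd, fun v hv => ⟨?_, hlead v hv⟩⟩
  by_cases hnv : n v = 0
  · rw [hnv, hpp]
    omega
  rcases hlead v hv hnv with rfl | rfl | ⟨i, j, hi, hj, rfl⟩
  · have h8 : 2 * e * r * (t + 1) ≤ 2 * e * r * d := Nat.mul_le_mul_left _ ht
    have h9 : 2 * e * r * d = 2 * N := by rw [hN]; ring
    omega
  · have h8 : n (cv 0 0 0 1) * cv 0 0 0 1 3 ≤ s3 :=
      single_le_sum (f := fun v => n v * v 3) (fun _ _ => Nat.zero_le _) hv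
    rw [cv_3, mul_one, hs3'] at h8
    omega
  · have h8 : n (cv j i 1 0) * cv j i 1 0 2 ≤ s2 :=
      single_le_sum (f := fun v => n v * v 2) (fun _ _ => Nat.zero_le _) hv
    rw [cv_2, mul_one, hs2'] at h8
    omega

theorem cub_bound (h : CubicType p m e a₂ a₄ a₆ g) {N : ℕ} (hN0 : 0 < N)
    (hp : p - 1 = 2 * N) (U : Fin 4 →₀ ℕ) (Z : Finset (Fin 4))
    (hU : ∀ j, (j ∈ Z ↔ U j = 0) ∧ (p - 1) ∣ U j + ellc p j) :
    2 * ((p - 1) * (cubWt h).l) ≤ (cubWt h).w U + max 1 Z.card * ((p - 1) * (cubWt h).l) := by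
  have b2 := (hU 2).2
  have b3 := (hU 3).2
  have hc2 : ellc p 2 = N := by
    show (p - 1) / 2 = N
    omega
  have hc3 : ellc p 3 = N := by
    show (p - 1) / 2 = N
    omega
  rw [hc2, hp] at b2
  rw [hc3, hp] at b3
  obtain ⟨z, hz⟩ := oddA32 hN0 b2
  obtain ⟨z', hz'⟩ := oddA32 hN0 b3
  rw [cub_l, cub_w, hp]
  have h1 : N * 1 ≤ U 2 := by
    rw [hz]
    exact Nat.mul_le_mul_left _ (by omega)
  have h2 : N * 1 ≤ U 3 := by
    rw [hz']
    exact Nat.mul_le_mul_left _ (by omega)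
  have h3 : e * g.natDegree * (2 * N) ≤ e * g.natDegree * (U 2 + U 3) := Nat.mul_le_mul_left _ (by omega)
  have h4 : 1 * (2 * N * (e * g.natDegree)) ≤ max 1 Z.card * (2 * N * (e * g.natDegree)) :=
    Nat.mul_le_mul_right _ (le_max_left _ _)
  have h5 : e * g.natDegree * (2 * N) = 2 * N * (e * g.natDegree) := by ring
  omega

end Pool.Agent.Helper9.WS
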