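import Pool.Agent.Helper9.WS.Defs4

/-!
WS-22: the weight for `y² = x³ + a₂(t) x² + a₄(t) x + a₆(t)`:
`e d (z + z') + max (0, e t + m x - 3 m z)`.
-/

set_option autoImplicit false

open MvPolynomial Finset

namespace Pool.Agent.Helper9.WS

/-- exponent vectors -/
noncomputable def cv (a b c d : ℕ) : Fin 4 →₀ ℕ := Finsupp.equivFunOnFinite.symm ![a, b, c, d]

lemma cv_0 (a b c d : ℕ) : cv a b c d 0 = a := rfl
lemma cv_1 (a b c d : ℕ) : cv a b c d 1 = b := rfl
lemma cv_2 (a b c d : ℕ) : cv a b c d 2 = c := rfl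
lemma cv_3 (a b c d : ℕ) : cv a b c d 3 = d := rfl

lemma cv_ext {U V : Fin 4 →₀ ℕ} (h0 : U 0 = V 0) (h1 : U 1 = V 1) (h2 : U 2 = V 2) (h3 : U 3 = V 3) :
    U = V := by
  ext j
  fin_cases j
  · exact h0
  · exact h1
  · exact h2
  · exact h3

lemma cv_inj {a b c d a' b' c' d' : ℕ} (h : cv a b c d = cv a' b' c' d') : a = a' ∧ b = b' ∧ c = c' ∧ d = d' :=
  ⟨DFunLike.congr_fun h 0, DFunLike.congr_fun h 1, DFunLike.congr_fun h 2, DFunLike.congr_fun h 3⟩

lemma cv_ne {a b c d a' b' c' d' : ℕ} (h : a ≠ a' ∨ b ≠ b' ∨ c ≠ c' ∨ d ≠ d') : cv a b c d ≠ cv a' b' c' d' := by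
  intro h1
  have h2 := cv_inj h1
  omega

lemma cv_mono {k : Type} [Field k] (a b c d : ℕ) (r : k) :
    (monomial (cv a b c d) r : MvPolynomial (Fin 4) k) = C r * (X 0 ^ a * X 1 ^ b * X 2 ^ c * X 3 ^ d) := by
  rw [monomial_eq, Finsupp.prod_fintype _ _ (fun i => pow_zero _), Fin.prod_univ_four]
  rfl

section

variable {k : Type} [Field k]

lemma cub_aeval (g : Polynomial k) : Polynomial.aeval (X 0 : MvPolynomial (Fin 4) k) g =
    ∑ i ∈ range (g.natDegree + 1), monomial (cv i 0 0 0) (g.coeff i) := by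
  rw [Polynomial.aeval_eq_sum_range]
  refine sum_congr rfl fun i _ => ?_
  rw [cv_mono, smul_eq_C_mul]
  ring

lemma cub_aeval_coeff (g : Polynomial k) (v : Fin 4 →₀ ℕ) :
    coeff v (Polynomial.aeval (X 0 : MvPolynomial (Fin 4) k) g) =
      if v = cv (v 0) 0 0 0 then g.coeff (v 0) else 0 := by
  classical
  rw [cub_aeval, coeff_sum]
  simp_rw [coeff_monomial]
  split_ifs with h
  · rw [Finset.sum_eq_single (v 0)]
    · rw [if_pos h.symm]
    · intro i _ hi
      rw [if_neg]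
      intro h1
      apply hi
      rw [← h1, cv_0]
    · intro h1
      rw [Finset.mem_range, not_lt] at h1
      rw [Polynomial.coeff_eq_zero_of_natDegree_lt (by omega)]
      simp
  · refine Finset.sum_eq_zero fun i _ => ?_
    rw [if_neg]
    rintro rfl
    exact h rfl

lemma cub_term_coeff (a : Polynomial k) (i : ℕ) (v : Fin 4 →₀ ℕ) :
    coeff v (X 2 * X 1 ^ i * Polynomial.aeval (X 0 : MvPolynomial (Fin 4) k) a) =
      if v = cv (v 0) i 1 0 then a.coeff (v 0) else 0 := by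
  classical
  have h1 : X 2 * X 1 ^ i * Polynomial.aeval (X 0 : MvPolynomial (Fin 4) k) a =
      ∑ j ∈ range (a.natDegree + 1), monomial (cv j i 1 0) (a.coeff j) := by
    rw [cub_aeval, mul_sum]
    refine sum_congr rfl fun j _ => ?_
    rw [cv_mono, cv_mono]
    ring
  rw [h1, coeff_sum]
  simp_rw [coeff_monomial]
  split_ifs with h
  · rw [Finset.sum_eq_single (v 0)]
    · rw [if_pos h.symm]
    · intro j _ hj
      rw [if_neg]
      intro h2
      apply hj
      rw [← h2, cv_0]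
    · intro h2
      rw [Finset.mem_range, not_lt] at h2
      rw [Polynomial.coeff_eq_zero_of_natDegree_lt (by omega)]
      simp
  · refine Finset.sum_eq_zero fun j _ => ?_
    rw [if_neg]
    rintro rfl
    exact h rfl

lemma cub_ell (a₂ a₄ a₆ g : Polynomial k) : ell4 (cubF a₂ a₄ a₆) g =
    Polynomial.aeval (X 0) g + (X 2 * X 1 ^ 3 * Polynomial.aeval (X 0) (1 : Polynomial k) +
      X 2 * X 1 ^ 2 * Polynomial.aeval (X 0) a₂ + X 2 * X 1 ^ 1 * Polynomial.aeval (X 0) a₄ +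
      X 2 * X 1 ^ 0 * Polynomial.aeval (X 0) a₆) + monomial (cv 0 0 0 1) 1 := by
  unfold ell4 ellVal cubF
  simp only [cv_mono, Polynomial.eval₂_mul, Polynomial.eval₂_add, Polynomial.eval₂_pow, Polynomial.eval₂_X,
    Polynomial.eval₂_C, AlgHom.toRingHom_eq_coe, RingHom.coe_coe, map_one]
  ring

/-- the coefficients of `ell4 (cubF a₂ a₄ a₆) g` -/
lemma cub_coeff (a₂ a₄ a₆ g : Polynomial k) (v : Fin 4 →₀ ℕ) : coeff v (ell4 (cubF a₂ a₄ a₆) g) =
    (if v = cv (v 0) 0 0 0 then g.coeff (v 0) else 0) +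
      ((if v = cv (v 0) 3 1 0 then (1 : Polynomial k).coeff (v 0) else 0) +
        (if v = cv (v 0) 2 1 0 then a₂.coeff (v 0) else 0) + (if v = cv (v 0) 1 1 0 then a₄.coeff (v 0) else 0) +
        (if v = cv (v 0) 0 1 0 then a₆.coeff (v 0) else 0)) + (if cv 0 0 0 1 = v then 1 else 0) := by
  rw [cub_ell]
  simp only [coeff_add, cub_aeval_coeff, cub_term_coeff, coeff_monomial]

lemma cub_coeff_g (a₂ a₄ a₆ g : Polynomial k) (j : ℕ) :
    coeff (cv j 0 0 0) (ell4 (cubF a₂ a₄ a₆) g) = g.coeff j := by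
  rw [cub_coeff, if_pos (show cv j 0 0 0 = cv ((cv j 0 0 0) 0) 0 0 0 from rfl), if_neg (cv_ne (by omega)),
    if_neg (cv_ne (by omega)), if_neg (cv_ne (by omega)), if_neg (cv_ne (by omega)), if_neg (cv_ne (by omega))]
  simp only [cv_0, add_zero]

lemma cub_coeff_z (a₂ a₄ a₆ g : Polynomial k) : coeff (cv 0 0 0 1) (ell4 (cubF a₂ a₄ a₆) g) = 1 := by
  rw [cub_coeff, if_neg (cv_ne (by omega)), if_neg (cv_ne (by omega)), if_neg (cv_ne (by omega)),
    if_neg (cv_ne (by omega)), if_neg (cv_ne (by omega)), if_pos rfl]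
  simp only [add_zero, zero_add]

lemma cub_coeff_3 (a₂ a₄ a₆ g : Polynomial k) (j : ℕ) :
    coeff (cv j 3 1 0) (ell4 (cubF a₂ a₄ a₆) g) = (1 : Polynomial k).coeff j := by
  rw [cub_coeff, if_neg (cv_ne (by omega)), if_pos (show cv j 3 1 0 = cv ((cv j 3 1 0) 0) 3 1 0 from rfl),
    if_neg (cv_ne (by omega)), if_neg (cv_ne (by omega)), if_neg (cv_ne (by omega)), if_neg (cv_ne (by omega))]
  simp only [cv_0, add_zero, zero_add]

lemma cub_coeff_2 (a₂ a₄ a₆ g : Polynomial k) (j : ℕ) :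
    coeff (cv j 2 1 0) (ell4 (cubF a₂ a₄ a₆) g) = a₂.coeff j := by
  rw [cub_coeff, if_neg (cv_ne (by omega)), if_neg (cv_ne (by omega)),
    if_pos (show cv j 2 1 0 = cv ((cv j 2 1 0) 0) 2 1 0 from rfl), if_neg (cv_ne (by omega)),
    if_neg (cv_ne (by omega)), if_neg (cv_ne (by omega))]
  simp only [cv_0, add_zero, zero_add]

lemma cub_coeff_1 (a₂ a₄ a₆ g : Polynomial k) (j : ℕ) :
    coeff (cv j 1 1 0) (ell4 (cubF a₂ a₄ a₆) g) = a₄.coeff j := by
  rw [cub_coeff, if_neg (cv_ne (by omega)), if_neg (cv_ne (by omega)), if_neg (cv_ne (by omega)),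
    if_pos (show cv j 1 1 0 = cv ((cv j 1 1 0) 0) 1 1 0 from rfl), if_neg (cv_ne (by omega)),
    if_neg (cv_ne (by omega))]
  simp only [cv_0, add_zero, zero_add]

lemma cub_coeff_0 (a₂ a₄ a₆ g : Polynomial k) (j : ℕ) :
    coeff (cv j 0 1 0) (ell4 (cubF a₂ a₄ a₆) g) = a₆.coeff j := by
  rw [cub_coeff, if_neg (cv_ne (by omega)), if_neg (cv_ne (by omega)), if_neg (cv_ne (by omega)),
    if_neg (cv_ne (by omega)), if_pos (show cv j 0 1 0 = cv ((cv j 0 1 0) 0) 0 1 0 from rfl),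
    if_neg (cv_ne (by omega))]
  simp only [cv_0, add_zero, zero_add]

/-- the exponents -/
lemma cub_sup {p m e : ℕ} {a₂ a₄ a₆ g : Polynomial k} (h : CubicType p m e a₂ a₄ a₆ g) {v : Fin 4 →₀ ℕ}
    (hv : v ∈ (ell4 (cubF a₂ a₄ a₆) g).support) :
    (∃ j, j ≤ g.natDegree ∧ v = cv j 0 0 0) ∨ (∃ i j, i ≤ 3 ∧ e * j ≤ m * (3 - i) ∧ v = cv j i 1 0) ∨
      v = cv 0 0 0 1 := by
  by_contra hcon
  push Not at hcon
  obtain ⟨h0, h1, h2⟩ := hcon
  rw [mem_support_iff, cub_coeff] at hv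
  apply hv
  rw [if_neg (fun h3 : cv 0 0 0 1 = v => h2 h3.symm), add_zero]
  have hle : ∀ (a : Polynomial k) (j : ℕ), a.coeff j ≠ 0 → j ≤ a.natDegree := fun a j hj =>
    Polynomial.le_natDegree_of_ne_zero hj
  have e0 : (if v = cv (v 0) 0 0 0 then g.coeff (v 0) else 0) = 0 := by
    split_ifs with h3
    · by_contra h4
      exact h0 _ (hle _ _ h4) h3
    · rfl
  have e1 : (if v = cv (v 0) 3 1 0 then (1 : Polynomial k).coeff (v 0) else 0) = 0 := by
    split_ifs with h3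
    · by_contra h4
      have h5 := hle _ _ h4
      rw [Polynomial.natDegree_one] at h5
      refine h1 3 (v 0) le_rfl ?_ h3
      have : v 0 = 0 := by omega
      rw [this]
      omega
    · rfl
  have e2 : (if v = cv (v 0) 2 1 0 then a₂.coeff (v 0) else 0) = 0 := by
    split_ifs with h3
    · by_contra h4
      refine h1 2 (v 0) (by omega) ?_ h3
      have h5 := Nat.mul_le_mul_left e (hle _ _ h4)
      have h6 := h.deg₂
      omega
    · rfl
  have e3 : (if v = cv (v 0) 1 1 0 then a₄.coeff (v 0) else 0) = 0 := by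
    split_ifs with h3
    · by_contra h4
      refine h1 1 (v 0) (by omega) ?_ h3
      have h5 := Nat.mul_le_mul_left e (hle _ _ h4)
      have h6 := h.deg₄
      omega
    · rfl
  have e4 : (if v = cv (v 0) 0 1 0 then a₆.coeff (v 0) else 0) = 0 := by
    split_ifs with h3
    · by_contra h4
      refine h1 0 (v 0) (by omega) ?_ h3
      have h5 := Nat.mul_le_mul_left e (hle _ _ h4)
      have h6 := h.deg₆
      omega
    · rfl
  rw [e0, e1, e2, e3, e4]
  simp

lemma CubicType.e_pos {p m e : ℕ} {a₂ a₄ a₆ g : Polynomial k} (h : CubicType p m e a₂ a₄ a₆ g) : 0 < e := by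
  have h1 := h.m_le
  have h2 := h.m_pos
  omega

/-- the weight -/
noncomputable def cubWt {p m e : ℕ} {a₂ a₄ a₆ g : Polynomial k} (h : CubicType p m e a₂ a₄ a₆ g) :
    Weight p (ell4 (cubF a₂ a₄ a₆) g).support (fun U : Fin 4 →₀ ℕ => U 1 ≤ 3 * U 2) where
  l := e * g.natDegree
  l_pos := Nat.mul_pos h.e_pos h.g_pos
  w U := e * g.natDegree * (U 2 + U 3) + (e * U 0 + m * U 1 - 3 * m * U 2)
  w_smul U := by
    simp only [Finsupp.smul_apply, smul_eq_mul]
    have e1 : e * (p * U 0) + m * (p * U 1) - 3 * m * (p * U 2) = p * (e * U 0 + m * U 1 - 3 * m * U 2) := by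
      rw [Nat.mul_sub]
      congr 1 <;> ring
    rw [e1]
    ring
  w_exp v hv U := by
    simp only [Finsupp.add_apply, Finsupp.smul_apply, smul_eq_mul]
    rcases cub_sup h hv with ⟨j, hj, rfl⟩ | ⟨i, j, hi, hj, rfl⟩ | rfl
    · simp only [cv_0, cv_1, cv_2, cv_3, mul_zero, add_zero]
      have h1 : (p - 1) * (e * j) ≤ (p - 1) * (e * g.natDegree) :=
        Nat.mul_le_mul_left _ (Nat.mul_le_mul_left _ hj)
      have h2 : e * (U 0 + (p - 1) * j) = e * U 0 + (p - 1) * (e * j) := by ring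
      omega
    · simp only [cv_0, cv_1, cv_2, cv_3, mul_zero, add_zero, mul_one]
      have h1 : e * g.natDegree * (U 2 + (p - 1) + U 3) =
        e * g.natDegree * (U 2 + U 3) + (p - 1) * (e * g.natDegree) := by ring
      have h2 : e * (U 0 + (p - 1) * j) = e * U 0 + (p - 1) * (e * j) := by ring
      have h3 : m * (U 1 + (p - 1) * i) = m * U 1 + (p - 1) * (m * i) := by ring
      have h4 : 3 * m * (U 2 + (p - 1)) = 3 * m * U 2 + (p - 1) * (3 * m) := by ring
      have h5 : e * j + m * i ≤ 3 * m := by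
        have : m * (3 - i) + m * i = 3 * m := by
          rw [← Nat.mul_add, Nat.sub_add_cancel hi]
          ring
        omega
      have h6 : (p - 1) * (e * j) + (p - 1) * (m * i) ≤ (p - 1) * (3 * m) := by
        rw [← Nat.mul_add]
        exact Nat.mul_le_mul_left _ h5
      omega
    · simp only [cv_0, cv_1, cv_2, cv_3, mul_zero, add_zero, mul_one]
      have h1 : e * g.natDegree * (U 2 + (U 3 + (p - 1))) =
        e * g.natDegree * (U 2 + U 3) + (p - 1) * (e * g.natDegree) := by ring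
      omega
  C_zero := by simp
  C_exp v hv U hU := by
    simp only [Finsupp.add_apply] at *
    rcases cub_sup h hv with ⟨j, hj, rfl⟩ | ⟨i, j, hi, hj, rfl⟩ | rfl <;>
      simp only [cv_1, cv_2] <;> omega
  C_smul n U hn hU := by
    simp only [Finsupp.smul_apply, smul_eq_mul] at hU
    have h1 : n * U 1 ≤ n * (3 * U 2) := by
      calc n * U 1 ≤ 3 * (n * U 2) := hU
        _ = _ := by ring
    exact Nat.le_of_mul_le_mul_left h1 hn

/-- the low vectors -/
noncomputable def lowv (N t : ℕ) : Fin 4 →₀ ℕ := cv (2 * N * (t + 1)) (2 * N) N N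

end

end Pool.Agent.Helper9.WS
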