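import Pool.Agent.Helper9.WS.Defs

/-!
WS-13b: the combinatorics of `y² = x (x² + u x + t)`. The weight is
`2 d (z + z') + max (0, 2 t + x - 3 z)`.
-/

set_option autoImplicit false

open MvPolynomial Finset

namespace Pool.Agent.Helper9.WS

/-- exponent vectors -/
private noncomputable def vc32 (a b c d : ℕ) : Fin 4 →₀ ℕ := Finsupp.equivFunOnFinite.symm ![a, b, c, d]

private lemma vc32_0 (a b c d : ℕ) : vc32 a b c d 0 = a := rfl
private lemma vc32_1 (a b c d : ℕ) : vc32 a b c d 1 = b := rfl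
private lemma vc32_2 (a b c d : ℕ) : vc32 a b c d 2 = c := rfl
private lemma vc32_3 (a b c d : ℕ) : vc32 a b c d 3 = d := rfl

private lemma vc32_ext {U V : Fin 4 →₀ ℕ} (h0 : U 0 = V 0) (h1 : U 1 = V 1) (h2 : U 2 = V 2) (h3 : U 3 = V 3) :
    U = V := by
  ext j
  fin_cases j
  · exact h0
  · exact h1
  · exact h2
  · exact h3

private lemma mono32 {k : Type} [Field k] (a b c d : ℕ) (r : k) :
    (monomial (vc32 a b c d) r : MvPolynomial (Fin 4) k) = C r * (X 0 ^ a * X 1 ^ b * X 2 ^ c * X 3 ^ d) := by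
  rw [monomial_eq, Finsupp.prod_fintype _ _ (fun i => pow_zero _), Fin.prod_univ_four]
  rfl

private lemma ell32 {k : Type} [Field k] (u : k) (g : Polynomial k) : ell4 (torF u) g =
    Polynomial.aeval (X 0) g + monomial (vc32 0 3 1 0) 1 + monomial (vc32 0 2 1 0) u +
      monomial (vc32 1 1 1 0) 1 + monomial (vc32 0 0 0 1) 1 := by
  unfold ell4 ellVal torF
  simp only [mono32, Polynomial.eval₂_mul, Polynomial.eval₂_add, Polynomial.eval₂_pow, Polynomial.eval₂_X,
    Polynomial.eval₂_C, AlgHom.toRingHom_eq_coe, RingHom.coe_coe, Polynomial.aeval_C, Polynomial.aeval_X,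
    MvPolynomial.algebraMap_eq, map_one]
  ring

private lemma coe32 {k : Type} [Field k] (g : Polynomial k) (e : Fin 4 →₀ ℕ) :
    coeff e (Polynomial.aeval (X 0 : MvPolynomial (Fin 4) k) g) =
      if e = vc32 (e 0) 0 0 0 then g.coeff (e 0) else 0 := by
  have hs : ∀ i : ℕ, (Finsupp.single (0 : Fin 4) i) = vc32 i 0 0 0 := by
    intro i
    apply vc32_ext <;> simp [vc32_0, vc32_1, vc32_2, vc32_3]
  rw [Polynomial.aeval_eq_sum_range, coeff_sum]
  simp_rw [coeff_smul, coeff_X_pow, hs, smul_eq_mul]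
  split_ifs with h
  · rw [Finset.sum_eq_single (e 0)]
    · rw [if_pos h.symm, mul_one]
    · intro i _ hi
      rw [if_neg, mul_zero]
      intro h1
      apply hi
      rw [← h1, vc32_0]
    · intro h1
      rw [Finset.mem_range, not_lt] at h1
      rw [Polynomial.coeff_eq_zero_of_natDegree_lt (by omega), zero_mul]
  · refine Finset.sum_eq_zero fun i _ => ?_
    rw [if_neg, mul_zero]
    rintro rfl
    exact h rfl

private lemma sup32 {k : Type} [Field k] {u : k} {g : Polynomial k} {e : Fin 4 →₀ ℕ}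
    (he : e ∈ (ell4 (torF u) g).support) : (∃ j, j ≤ g.natDegree ∧ e = vc32 j 0 0 0) ∨ e = vc32 0 3 1 0 ∨
      e = vc32 0 2 1 0 ∨ e = vc32 1 1 1 0 ∨ e = vc32 0 0 0 1 := by
  by_contra hcon
  push Not at hcon
  obtain ⟨h0, h1, h2, h3, h4⟩ := hcon
  rw [mem_support_iff, ell32] at he
  apply he
  simp only [coeff_add, coe32, coeff_monomial, if_neg h1.symm, if_neg h2.symm, if_neg h3.symm, if_neg h4.symm,
    add_zero]
  split_ifs with h
  · by_contra hg
    exact h0 (e 0) (Polynomial.le_natDegree_of_ne_zero hg) h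
  · rfl

private lemma ne32 {a b c d a' b' c' d' : ℕ} (h : a ≠ a' ∨ b ≠ b' ∨ c ≠ c' ∨ d ≠ d') :
    vc32 a b c d ≠ vc32 a' b' c' d' := by
  intro h1
  have h2 := DFunLike.congr_fun h1
  have e0 := h2 0
  have e1 := h2 1
  have e2 := h2 2
  have e3 := h2 3
  simp only [vc32_0, vc32_1, vc32_2, vc32_3] at e0 e1 e2 e3
  omega

private lemma mem32 {k : Type} [Field k] (u : k) {g : Polynomial k} (hg : 0 < g.natDegree) :
    vc32 0 3 1 0 ∈ (ell4 (torF u) g).support ∧ vc32 1 1 1 0 ∈ (ell4 (torF u) g).support ∧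
      vc32 g.natDegree 0 0 0 ∈ (ell4 (torF u) g).support ∧ vc32 0 0 0 1 ∈ (ell4 (torF u) g).support := by
  have hgl : g.coeff g.natDegree ≠ 0 := by
    rw [Polynomial.coeff_natDegree, Polynomial.leadingCoeff_ne_zero]
    rintro rfl
    simp at hg
  have hc : ∀ e, coeff e (ell4 (torF u) g) = (if e = vc32 (e 0) 0 0 0 then g.coeff (e 0) else 0) +
      (if vc32 0 3 1 0 = e then 1 else 0) + (if vc32 0 2 1 0 = e then u else 0) +
      (if vc32 1 1 1 0 = e then 1 else 0) + (if vc32 0 0 0 1 = e then 1 else 0) := by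
    intro e
    rw [ell32, coeff_add, coeff_add, coeff_add, coeff_add, coe32, coeff_monomial, coeff_monomial, coeff_monomial,
      coeff_monomial]
  refine ⟨?_, ?_, ?_, ?_⟩
  · rw [mem_support_iff, hc, if_neg (ne32 (by omega)), if_pos rfl, if_neg (ne32 (by omega)),
      if_neg (ne32 (by omega)), if_neg (ne32 (by omega))]
    simp
  · rw [mem_support_iff, hc, if_neg (ne32 (by omega)), if_neg (ne32 (by omega)), if_neg (ne32 (by omega)),
      if_pos rfl, if_neg (ne32 (by omega))]
    simp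
  · rw [mem_support_iff, hc, if_pos (show vc32 g.natDegree 0 0 0 = vc32 ((vc32 g.natDegree 0 0 0) 0) 0 0 0 from rfl),
      if_neg (ne32 (by omega)), if_neg (ne32 (by omega)), if_neg (ne32 (by omega)), if_neg (ne32 (by omega))]
    simpa [vc32_0] using hgl
  · rw [mem_support_iff, hc, if_neg (ne32 (by omega)), if_neg (ne32 (by omega)), if_neg (ne32 (by omega)),
      if_neg (ne32 (by omega)), if_pos rfl]
    simp

/-- the sums over the exponents -/
private lemma sum32 {k : Type} [Field k] (u : k) {g : Polynomial k} (hg : 0 < g.natDegree)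
    (F : (Fin 4 →₀ ℕ) → ℕ) (hF : ∀ e ∈ (ell4 (torF u) g).support, e ≠ vc32 0 3 1 0 → e ≠ vc32 1 1 1 0 →
      e ≠ vc32 g.natDegree 0 0 0 → e ≠ vc32 0 0 0 1 → F e = 0) :
    ∑ e ∈ (ell4 (torF u) g).support, F e = F (vc32 0 3 1 0) + F (vc32 1 1 1 0) + F (vc32 g.natDegree 0 0 0) +
      F (vc32 0 0 0 1) := by
  classical
  obtain ⟨m1, m2, m3, m4⟩ := mem32 u hg
  have hsub : ({vc32 0 3 1 0, vc32 1 1 1 0, vc32 g.natDegree 0 0 0, vc32 0 0 0 1} : Finset (Fin 4 →₀ ℕ)) ⊆
      (ell4 (torF u) g).support := by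
    intro e he
    simp only [mem_insert, mem_singleton] at he
    rcases he with rfl | rfl | rfl | rfl
    · exact m1
    · exact m2
    · exact m3
    · exact m4
  rw [← Finset.sum_subset hsub]
  · rw [sum_insert, sum_insert, sum_insert, sum_singleton]
    · ring
    · rw [mem_singleton]
      exact ne32 (by omega)
    · simp only [mem_insert, mem_singleton, not_or]
      exact ⟨ne32 (by omega), ne32 (by omega)⟩
    · simp only [mem_insert, mem_singleton, not_or]
      exact ⟨ne32 (by omega), ne32 (by omega), ne32 (by omega)⟩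
  · intro e he h1
    simp only [mem_insert, mem_singleton, not_or] at h1
    exact hF e he h1.1 h1.2.1 h1.2.2.1 h1.2.2.2

/-- the weight -/
private noncomputable def wt32 {p : ℕ} {k : Type} [Field k] (u : k) {g : Polynomial k} (hg : 0 < g.natDegree) :
    Weight p (ell4 (torF u) g).support (fun U : Fin 4 →₀ ℕ => U 1 ≤ 3 * U 2) where
  l := 2 * g.natDegree
  l_pos := by omega
  w U := 2 * g.natDegree * (U 2 + U 3) + (2 * U 0 + U 1 - 3 * U 2)
  w_smul U := by
    simp only [Finsupp.smul_apply, smul_eq_mul]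
    have e1 : 2 * (p * U 0) + p * U 1 - 3 * (p * U 2) = p * (2 * U 0 + U 1 - 3 * U 2) := by
      rw [Nat.mul_sub]
      congr 1 <;> ring
    rw [e1]
    ring
  w_exp e he U := by
    simp only [Finsupp.add_apply, Finsupp.smul_apply, smul_eq_mul]
    rcases sup32 he with ⟨j, hj, rfl⟩ | rfl | rfl | rfl | rfl
    · simp only [vc32_0, vc32_1, vc32_2, vc32_3, mul_zero, add_zero]
      have h1 : (p - 1) * (2 * j) ≤ (p - 1) * (2 * g.natDegree) := Nat.mul_le_mul_left _ (by omega)
      have h2 : 2 * (U 0 + (p - 1) * j) = 2 * U 0 + (p - 1) * (2 * j) := by ring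
      omega
    · simp only [vc32_0, vc32_1, vc32_2, vc32_3, mul_zero, add_zero, mul_one]
      have h1 : 2 * g.natDegree * (U 2 + (p - 1) + U 3) =
        2 * g.natDegree * (U 2 + U 3) + (p - 1) * (2 * g.natDegree) := by ring
      omega
    · simp only [vc32_0, vc32_1, vc32_2, vc32_3, mul_zero, add_zero, mul_one]
      have h1 : 2 * g.natDegree * (U 2 + (p - 1) + U 3) =
        2 * g.natDegree * (U 2 + U 3) + (p - 1) * (2 * g.natDegree) := by ring
      omega
    · simp only [vc32_0, vc32_1, vc32_2, vc32_3, mul_zero, add_zero, mul_one]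
      have h1 : 2 * g.natDegree * (U 2 + (p - 1) + U 3) =
        2 * g.natDegree * (U 2 + U 3) + (p - 1) * (2 * g.natDegree) := by ring
      omega
    · simp only [vc32_0, vc32_1, vc32_2, vc32_3, mul_zero, add_zero, mul_one]
      have h1 : 2 * g.natDegree * (U 2 + (U 3 + (p - 1))) =
        2 * g.natDegree * (U 2 + U 3) + (p - 1) * (2 * g.natDegree) := by ring
      omega
  C_zero := by simp
  C_exp e he U hU := by
    simp only [Finsupp.add_apply] at *
    rcases sup32 he with ⟨j, hj, rfl⟩ | rfl | rfl | rfl | rfl <;>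
      simp only [vc32_1, vc32_2] <;> omega
  C_smul m U hm hU := by
    simp only [Finsupp.smul_apply, smul_eq_mul] at hU
    have h1 : m * U 1 ≤ m * (3 * U 2) := by
      calc m * U 1 ≤ 3 * (m * U 2) := hU
        _ = _ := by ring
    exact Nat.le_of_mul_le_mul_left h1 hm

/-- odd multiples of `N` -/
private lemma odd32 {N x : ℕ} (hN : 0 < N) (h : 2 * N ∣ x + N) : ∃ y, x = N * (2 * y + 1) := by
  obtain ⟨c, hc⟩ := h
  have hc0 : c ≠ 0 := by
    rintro rfl
    omega
  obtain ⟨y, rfl⟩ := Nat.exists_eq_succ_of_ne_zero hc0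
  refine ⟨y, ?_⟩
  have h1 : N * (2 * y + 1) + N = 2 * N * (y + 1) := by ring
  have h2 : x + N = 2 * N * (y + 1) := hc
  omega

theorem tor_simple {p : ℕ} [Fact p.Prime] (hp : p ≠ 2) {k : Type} [Field k] {g : Polynomial k}
    (u : k) (hg : 0 < g.natDegree) (hd : 4 * g.natDegree ∣ p - 1) :
    ∃ (C : (Fin 4 →₀ ℕ) → Prop) (ω : Weight p (ell4 (torF u) g).support C)
      (low : Finset (Fin 4 →₀ ℕ)), ω.l = 2 * g.natDegree ∧
      Simple ω (ellc p) (2 * ((p - 1) * ω.l)) low ∧ low.card = g.natDegree := by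
  classical
  set d := g.natDegree with hdd
  obtain ⟨r, hr⟩ := hd
  have hp2 : 2 ≤ p := (Fact.out : p.Prime).two_le
  have hr0 : 0 < r := by
    rcases Nat.eq_zero_or_pos r with h | h
    · rw [h, mul_zero] at hr
      omega
    · exact h
  have hdr : 0 < d * r := by positivity
  -- N = 2 d r, p = 4 d r + 1
  have hN : (p - 1) / 2 = 2 * (d * r) := by
    rw [hr]
    have : 4 * d * r = 2 * (2 * (d * r)) := by ring
    omega
  have hp1 : p - 1 = 4 * (d * r) := by rw [hr]; ring
  have hpp : p = 4 * (d * r) + 1 := by omega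
  have hc0 : ellc p 0 = 0 := rfl
  have hc1 : ellc p 1 = 0 := rfl
  have hc2 : ellc p 2 = 2 * (d * r) := hN
  have hc3 : ellc p 3 = 2 * (d * r) := hN
  -- the low vectors
  have hform : ∀ U : Fin 4 →₀ ℕ, ((∀ j, U j ≠ 0 ∧ (p - 1) ∣ U j + ellc p j) ∧ U 1 ≤ 3 * U 2 ∧
      2 * d * (U 2 + U 3) + (2 * U 0 + U 1 - 3 * U 2) < 2 * ((p - 1) * (2 * d))) ↔
      ∃ t, t < d ∧ U = vc32 (4 * (d * r) * (t + 1)) (4 * (d * r)) (2 * (d * r)) (2 * (d * r)) := by
    intro U
    constructor
    · rintro ⟨h1, h2, h3⟩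
      obtain ⟨a0, b0⟩ := h1 0
      obtain ⟨a1, b1⟩ := h1 1
      obtain ⟨a2, b2⟩ := h1 2
      obtain ⟨a3, b3⟩ := h1 3
      rw [hc0, add_zero, hp1] at b0
      rw [hc1, add_zero, hp1] at b1
      rw [hc2, hp1, show 4 * (d * r) = 2 * (2 * (d * r)) by ring] at b2
      rw [hc3, hp1, show 4 * (d * r) = 2 * (2 * (d * r)) by ring] at b3
      obtain ⟨t, ht⟩ := b0
      obtain ⟨x, hx⟩ := b1
      obtain ⟨z, hz⟩ := odd32 (by omega) b2
      obtain ⟨z', hz'⟩ := odd32 (by omega) b3
      have ht0 : t ≠ 0 := by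
        rintro rfl
        exact a0 (by rw [ht, mul_zero])
      have hx0 : x ≠ 0 := by
        rintro rfl
        exact a1 (by rw [hx, mul_zero])
      rw [hp1] at h3
      have h4 : 2 * d * (U 2 + U 3) < 2 * d * (2 * (4 * (d * r))) := by
        have : 2 * (4 * (d * r) * (2 * d)) = 2 * d * (2 * (4 * (d * r))) := by ring
        omega
      have h5 : U 2 + U 3 < 2 * (4 * (d * r)) := Nat.lt_of_mul_lt_mul_left h4
      have h6 : 2 * (d * r) * (2 * z + 1 + (2 * z' + 1)) < 2 * (d * r) * 4 := by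
        have : 2 * (d * r) * (2 * z + 1 + (2 * z' + 1)) = U 2 + U 3 := by rw [hz, hz']; ring
        omega
      have h7 : 2 * z + 1 + (2 * z' + 1) < 4 := Nat.lt_of_mul_lt_mul_left h6
      have hz0 : z = 0 := by omega
      have hz0' : z' = 0 := by omega
      rw [hz0] at hz
      rw [hz0'] at hz'
      simp only [mul_zero, zero_add, mul_one] at hz hz'
      have h8 : x = 1 := by
        rw [hx, hz] at h2
        have h9 : (d * r) * (4 * x) ≤ (d * r) * 6 := by
          have e1 : (d * r) * (4 * x) = 4 * (d * r) * x := by ring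
          have e2 : (d * r) * 6 = 3 * (2 * (d * r)) := by ring
          omega
        have h10 := Nat.le_of_mul_le_mul_left h9 hdr
        omega
      rw [h8, mul_one] at hx
      obtain ⟨t', rfl⟩ := Nat.exists_eq_succ_of_ne_zero ht0
      refine ⟨t', ?_, vc32_ext ht hx hz hz'⟩
      by_contra hcon
      rw [not_lt] at hcon
      have h9 : (d * r) * d ≤ (d * r) * t' := Nat.mul_le_mul_left _ hcon
      have e1 : 2 * d * (U 2 + U 3) = 8 * ((d * r) * d) := by rw [hz, hz']; ring
      have e2 : 2 * U 0 = 8 * ((d * r) * t') + 8 * (d * r) := by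
        rw [ht]
        simp only [Nat.succ_eq_add_one]
        ring
      have e3 : 2 * (4 * (d * r) * (2 * d)) = 16 * ((d * r) * d) := by ring
      rw [e1, e2, e3, hx, hz] at h3
      omega
    · rintro ⟨t, ht, rfl⟩
      refine ⟨?_, ?_, ?_⟩
      · intro j
        fin_cases j
        · change 4 * (d * r) * (t + 1) ≠ 0 ∧ p - 1 ∣ 4 * (d * r) * (t + 1) + 0
          rw [hp1]
          exact ⟨by positivity, ⟨t + 1, by ring⟩⟩
        · change 4 * (d * r) ≠ 0 ∧ p - 1 ∣ 4 * (d * r) + 0
          rw [hp1]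
          exact ⟨by positivity, ⟨1, by ring⟩⟩
        · change 2 * (d * r) ≠ 0 ∧ p - 1 ∣ 2 * (d * r) + ellc p 2
          rw [hp1, hc2]
          exact ⟨by positivity, ⟨1, by ring⟩⟩
        · change 2 * (d * r) ≠ 0 ∧ p - 1 ∣ 2 * (d * r) + ellc p 3
          rw [hp1, hc3]
          exact ⟨by positivity, ⟨1, by ring⟩⟩
      · rw [vc32_1, vc32_2]
        omega
      · rw [vc32_0, vc32_1, vc32_2, vc32_3, hp1]
        have h9 : (d * r) * (t + 1) ≤ (d * r) * d := Nat.mul_le_mul_left _ ht
        have h10 : 0 < (d * r) * (t + 1) := by positivity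
        have e1 : 2 * d * (2 * (d * r) + 2 * (d * r)) = 8 * ((d * r) * d) := by ring
        have e2 : 2 * (4 * (d * r) * (t + 1)) = 8 * ((d * r) * (t + 1)) := by ring
        have e3 : 2 * (4 * (d * r) * (2 * d)) = 16 * ((d * r) * d) := by ring
        rw [e1, e2, e3]
        omega
  set low : Finset (Fin 4 →₀ ℕ) := (range d).image fun t =>
    vc32 (4 * (d * r) * (t + 1)) (4 * (d * r)) (2 * (d * r)) (2 * (d * r)) with hlow
  have hmem : ∀ U, U ∈ low ↔ ∃ t, t < d ∧ U = vc32 (4 * (d * r) * (t + 1)) (4 * (d * r)) (2 * (d * r)) (2 * (d * r)) := by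
    intro U
    rw [hlow, mem_image]
    constructor
    · rintro ⟨t, ht, rfl⟩
      exact ⟨t, mem_range.1 ht, rfl⟩
    · rintro ⟨t, ht, rfl⟩
      exact ⟨t, mem_range.2 ht, rfl⟩
  have hinj : ∀ t t' : ℕ, 4 * (d * r) * (t + 1) = 4 * (d * r) * (t' + 1) → t = t' := by
    intro t t' h
    have := Nat.eq_of_mul_eq_mul_left (by positivity) h
    omega
  -- solution of the tight equations
  have hsol : ∀ t t' : ℕ, t < d → t' < d → ∀ m : (Fin 4 →₀ ℕ) → ℕ,
      IsTight (wt32 (p := p) u hg) (vc32 (4 * (d * r) * (t + 1)) (4 * (d * r)) (2 * (d * r)) (2 * (d * r)))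
        (vc32 (4 * (d * r) * (t' + 1)) (4 * (d * r)) (2 * (d * r)) (2 * (d * r))) m →
      t = t' ∧ (∀ e ∈ (ell4 (torF u) g).support, e ≠ vc32 0 3 1 0 → e ≠ vc32 1 1 1 0 →
        e ≠ vc32 d 0 0 0 → e ≠ vc32 0 0 0 1 → m e = 0) ∧ m (vc32 0 3 1 0) = d * r ∧ m (vc32 1 1 1 0) = d * r ∧
        m (vc32 d 0 0 0) + r = 4 * r * (t + 1) ∧ m (vc32 0 0 0 1) = 2 * (d * r) := by
    rintro t t' ht ht' m ⟨h1, h2⟩
    have hco : ∀ j, (p - 1) * (∑ e ∈ (ell4 (torF u) g).support, m e * e j) +
        vc32 (4 * (d * r) * (t' + 1)) (4 * (d * r)) (2 * (d * r)) (2 * (d * r)) j =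
        p * vc32 (4 * (d * r) * (t + 1)) (4 * (d * r)) (2 * (d * r)) (2 * (d * r)) j := by
      intro j
      have h3 := DFunLike.congr_fun h1 j
      simpa [Finsupp.finsetSum_apply] using h3
    have q0 := hco 0
    have q1 := hco 1
    have q2 := hco 2
    have q3 := hco 3
    rw [vc32_0, vc32_0] at q0
    rw [vc32_1, vc32_1] at q1
    rw [vc32_2, vc32_2] at q2
    rw [vc32_3, vc32_3] at q3
    have hpos : 0 < p - 1 := by omega
    set s0 := ∑ e ∈ (ell4 (torF u) g).support, m e * e 0 with hs0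
    set s1 := ∑ e ∈ (ell4 (torF u) g).support, m e * e 1 with hs1
    set s2 := ∑ e ∈ (ell4 (torF u) g).support, m e * e 2 with hs2
    set s3 := ∑ e ∈ (ell4 (torF u) g).support, m e * e 3 with hs3
    set sm := ∑ e ∈ (ell4 (torF u) g).support, m e with hsm
    have hs1' : s1 = 4 * (d * r) := by
      have : (p - 1) * s1 = (p - 1) * (4 * (d * r)) := by
        have e1 : p * (4 * (d * r)) = (p - 1) * (4 * (d * r)) + 4 * (d * r) := by
          conv_lhs => rw [show p = (p - 1) + 1 by omega]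
          ring
        omega
      exact Nat.eq_of_mul_eq_mul_left hpos this
    have hs2' : s2 = 2 * (d * r) := by
      have : (p - 1) * s2 = (p - 1) * (2 * (d * r)) := by
        have e1 : p * (2 * (d * r)) = (p - 1) * (2 * (d * r)) + 2 * (d * r) := by
          conv_lhs => rw [show p = (p - 1) + 1 by omega]
          ring
        omega
      exact Nat.eq_of_mul_eq_mul_left hpos this
    have hs3' : s3 = 2 * (d * r) := by
      have : (p - 1) * s3 = (p - 1) * (2 * (d * r)) := by
        have e1 : p * (2 * (d * r)) = (p - 1) * (2 * (d * r)) + 2 * (d * r) := by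
          conv_lhs => rw [show p = (p - 1) + 1 by omega]
          ring
        omega
      exact Nat.eq_of_mul_eq_mul_left hpos this
    -- the component t
    have hs0' : s0 + (t' + 1) = (4 * (d * r) + 1) * (t + 1) := by
      have : 4 * (d * r) * (s0 + (t' + 1)) = 4 * (d * r) * ((4 * (d * r) + 1) * (t + 1)) := by
        rw [hp1, hpp] at q0
        calc 4 * (d * r) * (s0 + (t' + 1)) = 4 * (d * r) * s0 + 4 * (d * r) * (t' + 1) := by ring
          _ = _ := q0
          _ = _ := by ring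
      exact Nat.eq_of_mul_eq_mul_left (by positivity) this
    -- the weights
    have hw2 : 2 * s0 + s1 + 2 * d * s2 + 2 * d * s3 = 2 * d * sm + 3 * s2 := by
      have e1 : (wt32 (p := p) u hg).w (vc32 (4 * (d * r) * (t' + 1)) (4 * (d * r)) (2 * (d * r)) (2 * (d * r))) =
          2 * d * (2 * (d * r) + 2 * (d * r)) + (2 * (4 * (d * r) * (t' + 1)) + 4 * (d * r) - 3 * (2 * (d * r))) := rfl
      have e2 : (wt32 (p := p) u hg).w (vc32 (4 * (d * r) * (t + 1)) (4 * (d * r)) (2 * (d * r)) (2 * (d * r))) =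
          2 * d * (2 * (d * r) + 2 * (d * r)) + (2 * (4 * (d * r) * (t + 1)) + 4 * (d * r) - 3 * (2 * (d * r))) := rfl
      have e3 : (wt32 (p := p) u hg).l = 2 * d := rfl
      rw [e1, e2, e3, hp1, hpp] at h2
      have e4 : 2 * (4 * (d * r) * (t' + 1)) + 4 * (d * r) - 3 * (2 * (d * r)) = (d * r) * (8 * t' + 6) := by
        have : 2 * (4 * (d * r) * (t' + 1)) + 4 * (d * r) = (d * r) * (8 * t' + 6) + 3 * (2 * (d * r)) := by ring
        omega
      have e5 : 2 * (4 * (d * r) * (t + 1)) + 4 * (d * r) - 3 * (2 * (d * r)) = (d * r) * (8 * t + 6) := by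
        have : 2 * (4 * (d * r) * (t + 1)) + 4 * (d * r) = (d * r) * (8 * t + 6) + 3 * (2 * (d * r)) := by ring
        omega
      rw [e4, e5] at h2
      have h3 : (d * r) * (8 * d + (8 * t' + 6) + 4 * (2 * d) * sm) =
          (d * r) * ((4 * (d * r) + 1) * (8 * d + (8 * t + 6))) := by
        calc _ = 2 * d * (2 * (d * r) + 2 * (d * r)) + (d * r) * (8 * t' + 6) + 4 * (d * r) * (2 * d) * sm := by ring
          _ = _ := h2
          _ = _ := by ring
      have h4 := Nat.eq_of_mul_eq_mul_left hdr h3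
      rw [hs1', hs2', hs3']
      have h5 : 4 * (2 * s0 + 4 * (d * r) + 2 * d * (2 * (d * r)) + 2 * d * (2 * (d * r))) =
          4 * (2 * d * sm + 3 * (2 * (d * r))) := by
        nlinarith [hs0', h4]
      omega
    -- the defect vanishes
    have hdef : ∀ e ∈ (ell4 (torF u) g).support, m e * (2 * e 0 + e 1 + 2 * d * e 2 + 2 * d * e 3) ≤
        m e * (2 * d + 3 * e 2) := by
      intro e he
      refine Nat.mul_le_mul_left _ ?_
      rcases sup32 he with ⟨j, hj, rfl⟩ | rfl | rfl | rfl | rfl <;>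
        simp only [vc32_0, vc32_1, vc32_2, vc32_3] <;> omega
    have hdeq : ∑ e ∈ (ell4 (torF u) g).support, m e * (2 * e 0 + e 1 + 2 * d * e 2 + 2 * d * e 3) =
        ∑ e ∈ (ell4 (torF u) g).support, m e * (2 * d + 3 * e 2) := by
      have e1 : ∑ e ∈ (ell4 (torF u) g).support, m e * (2 * e 0 + e 1 + 2 * d * e 2 + 2 * d * e 3) =
          2 * s0 + s1 + 2 * d * s2 + 2 * d * s3 := by
        rw [hs0, hs1, hs2, hs3, mul_sum, mul_sum, mul_sum, ← sum_add_distrib, ← sum_add_distrib, ← sum_add_distrib]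
        exact sum_congr rfl fun e _ => by ring
      have e2 : ∑ e ∈ (ell4 (torF u) g).support, m e * (2 * d + 3 * e 2) = 2 * d * sm + 3 * s2 := by
        rw [hsm, hs2, mul_sum, mul_sum, ← sum_add_distrib]
        exact sum_congr rfl fun e _ => by ring
      rw [e1, e2, hw2]
    have hall := (sum_eq_sum_iff_of_le hdef).1 hdeq
    have hz : ∀ e ∈ (ell4 (torF u) g).support, e ≠ vc32 0 3 1 0 → e ≠ vc32 1 1 1 0 →
        e ≠ vc32 d 0 0 0 → e ≠ vc32 0 0 0 1 → m e = 0 := by
      intro e he n1 n2 n3 n4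
      have h3 := hall e he
      by_contra hm
      have h4 := Nat.eq_of_mul_eq_mul_left (Nat.pos_of_ne_zero hm) h3
      rcases sup32 he with ⟨j, hj, rfl⟩ | rfl | rfl | rfl | rfl
      · simp only [vc32_0, vc32_1, vc32_2, vc32_3] at h4
        have : j = d := by omega
        rw [this] at n3
        exact n3 rfl
      · exact n1 rfl
      · simp only [vc32_0, vc32_1, vc32_2, vc32_3] at h4
        omega
      · exact n2 rfl
      · exact n4 rfl
    have t0 := sum32 u hg (fun e => m e * e 0) (fun e he n1 n2 n3 n4 => by rw [hz e he n1 n2 n3 n4, zero_mul])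
    have t1 := sum32 u hg (fun e => m e * e 1) (fun e he n1 n2 n3 n4 => by rw [hz e he n1 n2 n3 n4, zero_mul])
    have t2 := sum32 u hg (fun e => m e * e 2) (fun e he n1 n2 n3 n4 => by rw [hz e he n1 n2 n3 n4, zero_mul])
    have t3 := sum32 u hg (fun e => m e * e 3) (fun e he n1 n2 n3 n4 => by rw [hz e he n1 n2 n3 n4, zero_mul])
    simp only [vc32_0, vc32_1, vc32_2, vc32_3, mul_zero, mul_one, add_zero, zero_add] at t0 t1 t2 t3
    rw [← hs0, hdd.symm] at t0
    rw [← hs1, hs1'] at t1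
    rw [← hs2, hs2'] at t2
    rw [← hs3, hs3'] at t3
    have k1 : m (vc32 0 3 1 0) = d * r := by omega
    have k2 : m (vc32 1 1 1 0) = d * r := by omega
    -- congruence modulo d
    have k3 : d * r + m (vc32 d 0 0 0) * d + (t' + 1) = (4 * (d * r) + 1) * (t + 1) := by
      rw [← hs0', t0, k2]
    have ktt : t = t' := by
      have h5 : (t : ℤ) - t' = d * (r + m (vc32 d 0 0 0) - 4 * r * (t + 1)) := by
        have h6 : ((d * r + m (vc32 d 0 0 0) * d + (t' + 1) : ℕ) : ℤ) = (((4 * (d * r) + 1) * (t + 1) : ℕ) : ℤ) := by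
          rw [k3]
        push_cast at h6
        linarith
      have h6 : (t : ℤ) - t' = 0 := by
        refine Int.eq_zero_of_abs_lt_dvd (m := (d : ℤ)) ⟨_, h5⟩ ?_
        rw [abs_lt]
        constructor <;> omega
      omega
    refine ⟨ktt, hz, k1, k2, ?_, by omega⟩
    rw [← ktt] at k3
    have h5 : d * (m (vc32 d 0 0 0) + r) = d * (4 * r * (t + 1)) := by
      have e1 : (4 * (d * r) + 1) * (t + 1) = d * (4 * r * (t + 1)) + (t + 1) := by ring
      have e2 : d * (m (vc32 d 0 0 0) + r) = d * r + m (vc32 d 0 0 0) * d := by ring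
      omega
    exact Nat.eq_of_mul_eq_mul_left hg h5
  refine ⟨_, wt32 (p := p) u hg, low, rfl, ⟨?_, ?_, ?_, ?_, ?_⟩, ?_⟩
  · intro U
    rw [hmem]
    exact (hform U).symm
  · intro U hU V hV h
    obtain ⟨t, ht, rfl⟩ := (hmem U).1 hU
    obtain ⟨t', ht', rfl⟩ := (hmem V).1 hV
    have e1 : 2 * d * (2 * (d * r) + 2 * (d * r)) + (2 * (4 * (d * r) * (t + 1)) + 4 * (d * r) - 3 * (2 * (d * r))) =
        2 * d * (2 * (d * r) + 2 * (d * r)) + (2 * (4 * (d * r) * (t' + 1)) + 4 * (d * r) - 3 * (2 * (d * r))) := h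
    have e4 : ∀ t, 2 * (4 * (d * r) * (t + 1)) + 4 * (d * r) - 3 * (2 * (d * r)) = (d * r) * (8 * t + 6) := by
      intro t
      have : 2 * (4 * (d * r) * (t + 1)) + 4 * (d * r) = (d * r) * (8 * t + 6) + 3 * (2 * (d * r)) := by ring
      omega
    rw [e4, e4] at e1
    have e5 := Nat.eq_of_mul_eq_mul_left hdr (Nat.add_left_cancel e1)
    have e6 : t = t' := by omega
    rw [e6]
  · intro U hU
    obtain ⟨t, ht, rfl⟩ := (hmem U).1 hU
    refine ⟨fun e => if e = vc32 0 3 1 0 then d * r else if e = vc32 1 1 1 0 then d * r else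
      if e = vc32 d 0 0 0 then 4 * r * (t + 1) - r else if e = vc32 0 0 0 1 then 2 * (d * r) else 0, ⟨?_, ?_⟩, ?_⟩
    · have hF : ∀ F : (Fin 4 →₀ ℕ) → ℕ, (∑ e ∈ (ell4 (torF u) g).support,
          (if e = vc32 0 3 1 0 then d * r else if e = vc32 1 1 1 0 then d * r else
            if e = vc32 d 0 0 0 then 4 * r * (t + 1) - r else if e = vc32 0 0 0 1 then 2 * (d * r) else 0) * F e) =
          d * r * F (vc32 0 3 1 0) + d * r * F (vc32 1 1 1 0) + (4 * r * (t + 1) - r) * F (vc32 d 0 0 0) +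
            2 * (d * r) * F (vc32 0 0 0 1) := by
        intro F
        rw [sum32 u hg]
        · rw [← hdd, if_pos rfl, if_neg (ne32 (by omega)), if_pos rfl, if_neg (ne32 (by omega)),
            if_neg (ne32 (by omega)), if_pos rfl, if_neg (ne32 (by omega)), if_neg (ne32 (by omega)),
            if_neg (ne32 (by omega)), if_pos rfl]
        · intro e _ n1 n2 n3 n4
          rw [if_neg n1, if_neg n2, if_neg n3, if_neg n4, zero_mul]
      have hco : ∀ j, (∑ e ∈ (ell4 (torF u) g).support,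
          (if e = vc32 0 3 1 0 then d * r else if e = vc32 1 1 1 0 then d * r else
            if e = vc32 d 0 0 0 then 4 * r * (t + 1) - r else if e = vc32 0 0 0 1 then 2 * (d * r) else 0) * e j) =
          vc32 (4 * (d * r) * (t + 1)) (4 * (d * r)) (2 * (d * r)) (2 * (d * r)) j := by
        intro j
        rw [hF (fun e => e j)]
        have e0 : r ≤ 4 * r * (t + 1) := by nlinarith
        obtain ⟨c, hc⟩ := Nat.exists_eq_add_of_le e0
        have e1 : 4 * r * (t + 1) - r = c := by omega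
        rw [e1]
        fin_cases j
        · change d * r * 0 + d * r * 1 + c * d + 2 * (d * r) * 0 = 4 * (d * r) * (t + 1)
          have : 4 * (d * r) * (t + 1) = d * (4 * r * (t + 1)) := by ring
          rw [this, hc]
          ring
        · change d * r * 3 + d * r * 1 + c * 0 + 2 * (d * r) * 0 = 4 * (d * r)
          ring
        · change d * r * 1 + d * r * 1 + c * 0 + 2 * (d * r) * 0 = 2 * (d * r)
          ring
        · change d * r * 0 + d * r * 0 + c * 0 + 2 * (d * r) * 1 = 2 * (d * r)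
          ring
      have hvec : (∑ e ∈ (ell4 (torF u) g).support,
          (if e = vc32 0 3 1 0 then d * r else if e = vc32 1 1 1 0 then d * r else
            if e = vc32 d 0 0 0 then 4 * r * (t + 1) - r else if e = vc32 0 0 0 1 then 2 * (d * r) else 0) • e) =
          vc32 (4 * (d * r) * (t + 1)) (4 * (d * r)) (2 * (d * r)) (2 * (d * r)) := by
        ext j
        rw [← hco j, Finsupp.finsetSum_apply]
        rfl
      rw [hvec, ← succ_nsmul]
      congr 1
      omega
    · have h1 := sum32 u hg (fun e => if e = vc32 0 3 1 0 then d * r else if e = vc32 1 1 1 0 then d * r else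
            if e = vc32 d 0 0 0 then 4 * r * (t + 1) - r else if e = vc32 0 0 0 1 then 2 * (d * r) else 0)
          (fun e _ n1 n2 n3 n4 => by rw [if_neg n1, if_neg n2, if_neg n3, if_neg n4])
      rw [h1]
      rw [← hdd, if_pos rfl, if_neg (ne32 (by omega)), if_pos rfl, if_neg (ne32 (by omega)),
            if_neg (ne32 (by omega)), if_pos rfl, if_neg (ne32 (by omega)), if_neg (ne32 (by omega)),
            if_neg (ne32 (by omega)), if_pos rfl]
      have e0 : r ≤ 4 * r * (t + 1) := by nlinarith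
      obtain ⟨c, hc⟩ := Nat.exists_eq_add_of_le e0
      have e1 : 4 * r * (t + 1) - r = c := by omega
      rw [e1]
      have e2 : (wt32 (p := p) u hg).w (vc32 (4 * (d * r) * (t + 1)) (4 * (d * r)) (2 * (d * r)) (2 * (d * r))) =
          2 * d * (2 * (d * r) + 2 * (d * r)) + (2 * (4 * (d * r) * (t + 1)) + 4 * (d * r) - 3 * (2 * (d * r))) := rfl
      have e3 : (wt32 (p := p) u hg).l = 2 * d := rfl
      have e4 : 2 * (4 * (d * r) * (t + 1)) + 4 * (d * r) - 3 * (2 * (d * r)) = (d * r) * (8 * t + 6) := by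
        have : 2 * (4 * (d * r) * (t + 1)) + 4 * (d * r) = (d * r) * (8 * t + 6) + 3 * (2 * (d * r)) := by ring
        omega
      rw [e2, e3, e4]
      have e5 : p = (p - 1) + 1 := by omega
      have e6 : 2 * d * (2 * (d * r) + 2 * (d * r)) + (d * r) * (8 * t + 6) = 2 * d * (d * r + d * r + c + 2 * (d * r)) := by
        have : (d * r) * (8 * t + 6) = 2 * d * c := by
          have h7 : d * (r * (8 * t + 6)) = d * (2 * c) := by
            have : 2 * c = r * (8 * t + 6) := by
              have h8 : 2 * (r + c) = 2 * (4 * r * (t + 1)) := by rw [← hc]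
              have h9 : 2 * (4 * r * (t + 1)) = r * (8 * t + 6) + 2 * r := by ring
              omega
            rw [this]
          calc (d * r) * (8 * t + 6) = d * (r * (8 * t + 6)) := by ring
            _ = d * (2 * c) := h7
            _ = _ := by ring
        rw [this]
        ring
      conv_rhs => rw [e5]
      rw [e6]
      ring
    · intro e _
      have e0 : r ≤ 4 * r * (t + 1) := by nlinarith
      have e1 : r * (t + 1) ≤ r * d := Nat.mul_le_mul_left _ ht
      have e2 : 4 * r * (t + 1) = 4 * (r * (t + 1)) := by ring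
      have e3 : r * d = d * r := mul_comm _ _
      simp only
      split_ifs <;> omega
  · intro U hU V hV m m' hm hm'
    obtain ⟨t, ht, rfl⟩ := (hmem U).1 hU
    obtain ⟨t', ht', rfl⟩ := (hmem V).1 hV
    obtain ⟨a1, a2, a3, a4, a5, a6⟩ := hsol t t' ht ht' m hm
    obtain ⟨-, b2, b3, b4, b5, b6⟩ := hsol t t ht ht m' hm'
    refine ⟨by rw [a1], fun e he => ?_⟩
    by_cases n1 : e = vc32 0 3 1 0
    · rw [n1, a3, b3]
    by_cases n2 : e = vc32 1 1 1 0
    · rw [n2, a4, b4]
    by_cases n3 : e = vc32 d 0 0 0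
    · rw [n3]
      omega
    by_cases n4 : e = vc32 0 0 0 1
    · rw [n4, a6, b6]
    rw [a2 e he n1 n2 n3 n4, b2 e he n1 n2 n3 n4]
  · intro U Z hU _
    have b2 := (hU 2).2
    have b3 := (hU 3).2
    rw [hc2, hp1, show 4 * (d * r) = 2 * (2 * (d * r)) by ring] at b2
    rw [hc3, hp1, show 4 * (d * r) = 2 * (2 * (d * r)) by ring] at b3
    obtain ⟨z, hz⟩ := odd32 (by omega) b2
    obtain ⟨z', hz'⟩ := odd32 (by omega) b3
    have e3 : (wt32 (p := p) u hg).l = 2 * d := rfl
    have e2 : (wt32 (p := p) u hg).w U = 2 * d * (U 2 + U 3) + (2 * U 0 + U 1 - 3 * U 2) := rfl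
    rw [e2, e3, hp1]
    have h1 : 2 * (d * r) * 1 ≤ U 2 := by
      rw [hz]
      exact Nat.mul_le_mul_left _ (by omega)
    have h2 : 2 * (d * r) * 1 ≤ U 3 := by
      rw [hz']
      exact Nat.mul_le_mul_left _ (by omega)
    have h3 : 2 * d * (4 * (d * r)) ≤ 2 * d * (U 2 + U 3) := Nat.mul_le_mul_left _ (by omega)
    have h4 : 1 * (4 * (d * r) * (2 * d)) ≤ max 1 Z.card * (4 * (d * r) * (2 * d)) :=
      Nat.mul_le_mul_right _ (le_max_left _ _)
    have h5 : 2 * d * (4 * (d * r)) = 4 * (d * r) * (2 * d) := by ring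
    omega
  · rw [hlow, card_image_of_injective, card_range]
    intro t t' h
    have h1 := DFunLike.congr_fun h 0
    simp only [vc32_0] at h1
    exact hinj t t' h1

end Pool.Agent.Helper9.WS
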